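import Pool.Agent.P.MP_c5a58e_co.Seqs

/-! Specialisations of the closed form: the four identities of the problem and two more. -/

namespace Pool.Agent.P.MP_c5a58e_co

open Finset Polynomial

variable {R : Type} [CommRing R] [Algebra ℚ R]

theorem hankelPf_map {S : Type} [CommRing S] [Algebra ℚ S] (f : R →+* S) (s : ℕ) (x : ℕ → R)
    (n : ℕ) : f (hankelPf s x n) = hankelPf s (fun m => f (x m)) n := by
  unfold hankelPf
  rw [Pf_map]
  simp only [map_mul, map_sub, map_natCast]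

theorem hankelPf_two (a : R) (x y : ℕ → R) (h : ∀ m, x (m + 1) = a * y m) (n : ℕ) :
    hankelPf 2 x n = a ^ n * hankelPf 3 y n := by
  unfold hankelPf Pf
  rw [mul_smul_comm, mul_sum]
  congr 1
  refine sum_congr rfl fun σ _ => ?_
  rw [mul_left_comm, ← Fin.prod_const, ← prod_mul_distrib]
  congr 1
  refine prod_congr rfl fun i _ => ?_
  have h1 : (σ (ev i)).1 ≠ (σ (od i)).1 := fun e => ev_ne_od i i (σ.injective (Fin.ext e))
  beta_reduce
  rw [show (σ (ev i)).1 + 1 + ((σ (od i)).1 + 1) - 2 =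
    (σ (ev i)).1 + 1 + ((σ (od i)).1 + 1) - 3 + 1 by omega, h]
  ring

/-- The product case. -/
theorem case_prod (b0 b lam u : R) (hc : (b0 - b) ^ 2 = lam * (4 * (1 - u))) (m : ℕ) :
    hankelPf 3 (fun n => paths b0 b (u * lam) lam n 0) (m + 1) =
      lam ^ (m * (m + 1)) * u ^ m * ∏ k ∈ range (m + 1), (4 * (k : R) + 1) := by
  have hS := closed_sys (1 - u) (0 : R)
  rw [hankel_sys hS (by ring) (by rw [hc]; ring)]
  congr 1
  induction m with
  | zero => simp [hS.Q0]
  | succ m ih => rw [hS.hQ, ih, prod_range_succ _ (m + 1)]; push_cast; ring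

theorem case_semi (b lam : R) (m : ℕ) :
    hankelPf 3 (fun n => paths b b lam lam n 0) (m + 1) =
      lam ^ (m * (m + 1)) * ∏ k ∈ range (m + 1), (4 * (k : R) + 1) := by
  simpa using case_prod b b lam 1 (by ring) m

theorem case_arcsine (b lam : R) (m : ℕ) :
    hankelPf 3 (fun n => paths b b (2 * lam) lam n 0) (m + 1) =
      lam ^ (m * (m + 1)) * 2 ^ m * ((2 * m + 1) * ∏ k ∈ Icc 1 m, (4 * (k : R) - 1)) := by
  have hS := closed_sys (-1 : R) 4
  rw [hankel_sys hS (by ring) (by ring)]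
  congr 1
  have key : cd (-1 : R) 4 m = ∏ k ∈ Icc 1 m, (4 * (k : R) - 1) ∧
      cE (-1 : R) 4 m = (m + 1) * cd (-1 : R) 4 m ∧
      cQ (-1 : R) 4 m = (2 * m + 1) * cd (-1 : R) 4 m := by
    induction m with
    | zero => simp [hS.Q0, hS.d0, hS.E0]
    | succ m ih =>
      obtain ⟨h1, h2, h3⟩ := ih
      have h4 : cd (-1 : R) 4 (m + 1) = (4 * m + 3) * cd (-1 : R) 4 m := by
        rw [hS.hd]; ring
      refine ⟨?_, ?_, ?_⟩
      · rw [h4, h1, prod_Icc_succ_top (by omega)]; push_cast; ring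
      · rw [hS.hE, h4, h2]; push_cast; ring
      · rw [hS.hQ, h4, h2, h3]; push_cast; ring
  rw [key.2.2, key.1]

/-- Identity (1) of the problem. -/
theorem q1_motzkin (n : ℕ) (hn : 1 ≤ n) :
    hankelPf 3 motzkin n = ∏ k ∈ range n, (4 * (k : ℚ) + 1) := by
  obtain ⟨m, rfl⟩ : ∃ m, n = m + 1 := ⟨n - 1, by omega⟩
  rw [show motzkin = _ from funext motzkin_eq, case_semi, one_pow, one_mul]

/-- Identity (2) of the problem. -/
theorem q1_delannoy (n : ℕ) (hn : 1 ≤ n) :
    hankelPf 3 delannoy n =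
      2 ^ (n ^ 2 - 1) * (2 * (n : ℚ) - 1) * ∏ k ∈ Icc 1 (n - 1), (4 * (k : ℚ) - 1) := by
  obtain ⟨m, rfl⟩ : ∃ m, n = m + 1 := ⟨n - 1, by omega⟩
  rw [show delannoy = _ from funext delannoy_eq, case_arcsine, Nat.add_sub_cancel,
    show (m + 1) ^ 2 - 1 = m * (m + 1) + m from (Nat.sub_eq_of_eq_add (by ring)), pow_add]
  push_cast
  ring

/-- Identity (4) of the problem. -/
theorem q1_narayana (n : ℕ) (hn : 1 ≤ n) :
    hankelPf 2 narayana n = X ^ (n ^ 2) * ∏ k ∈ range n, (4 * (k : ℚ[X]) + 1) := by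
  obtain ⟨m, rfl⟩ : ∃ m, n = m + 1 := ⟨n - 1, by omega⟩
  rw [hankelPf_two X narayana _ narayana_succ, case_semi]
  ring

/-- Identity (3) of the problem. -/
theorem q1_schroeder (n : ℕ) (hn : 1 ≤ n) :
    hankelPf 2 schroeder n = 2 ^ (n ^ 2) * ∏ k ∈ range n, (4 * (k : ℚ) + 1) := by
  have h := congrArg (evalRingHom (2 : ℚ)) (q1_narayana n hn)
  rw [hankelPf_map] at h
  rw [show schroeder = _ from funext schroeder_eq]
  simpa [eval_prod] using h

/-- The case of one pole. -/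
theorem case_pole (b0 b lam δ : R) (hc : (b0 - b) ^ 2 = lam * δ) (m : ℕ) :
    hankelPf 3 (fun n => paths b0 b lam lam n 0) (m + 1) =
      lam ^ (m * (m + 1)) * ∑ i ∈ range (m + 1), (m.choose i : R) *
        (∏ t ∈ range i, (4 * (t : R) + 5)) * (∏ t ∈ range (m - i), (4 * (t : R) + 1)) *
          δ ^ (m - i) := by
  have h := main b0 b lam 1 δ (by rw [hc]; ring) m
  rw [sum_eq_single m (fun k hk hk' => by
    rw [sub_self, zero_pow (by rw [mem_range] at hk; omega)]; ring) (by simp)] at h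
  simpa [two_mul] using h

/-- The Narayana polynomials without shift. -/
theorem narayana_unshifted (m : ℕ) :
    hankelPf 3 narayana (m + 1) = X ^ (m ^ 2) * ∑ i ∈ range (m + 1), (m.choose i : ℚ[X]) *
      (∏ t ∈ range i, (4 * (t : ℚ[X]) + 5)) * (∏ t ∈ range (m - i), (4 * (t : ℚ[X]) + 1)) *
        X ^ i := by
  apply IsFractionRing.injective ℚ[X] (RatFunc ℚ)
  have hx : (algebraMap ℚ[X] (RatFunc ℚ) X) ≠ 0 := by simp [RatFunc.X_ne_zero]
  rw [hankelPf_map]
  simp only [narayana_eq, paths_map, map_add, map_one, map_mul, map_pow, map_sum, map_prod,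
    map_natCast, map_ofNat]
  generalize algebraMap ℚ[X] (RatFunc ℚ) X = a at hx
  rw [case_pole a (1 + a) a a⁻¹ (by field_simp; ring), mul_sum, mul_sum]
  refine sum_congr rfl fun i hi => ?_
  rw [mem_range] at hi
  have h : a ^ (m * (m + 1)) = a ^ (m ^ 2) * a ^ i * a ^ (m - i) := by
    rw [← pow_add, ← pow_add]
    congr 1
    rw [add_assoc, Nat.add_sub_cancel' (by omega)]
    ring
  rw [h, inv_pow]
  field_simp

end Pool.Agent.P.MP_c5a58e_co
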