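import Mathlib

namespace Pool.Agent.P.MP_c5a58e_co

open Finset Polynomial

variable {R : Type} [CommRing R]

/-- Chebyshev polynomials of the second kind, shifted and scaled; `ch (m + 1)` has degree `m`. -/
noncomputable def ch (b lam : R) : ℕ → R[X]
  | 0 => 0
  | 1 => 1
  | n + 2 => (X - C b) * ch b lam (n + 1) - C lam * ch b lam n

/-- Chebyshev polynomials of the first kind, shifted and scaled. -/
noncomputable def ct (b lam : R) : ℕ → R[X]
  | 0 => 2
  | n + 1 => ch b lam (n + 2) - C lam * ch b lam n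

variable (b lam : R)

theorem ch_rec (n : ℕ) :
    ch b lam (n + 2) = (X - C b) * ch b lam (n + 1) - C lam * ch b lam n := rfl

theorem ch_der (m : ℕ) :
    (X - C b) * derivative (ch b lam (m + 1)) - 2 * C lam * derivative (ch b lam m) =
        (m : R[X]) * ch b lam (m + 1) ∧
      2 * derivative (ch b lam (m + 1)) - (X - C b) * derivative (ch b lam m) =
        ((m : R[X]) + 1) * ch b lam m := by
  induction m with
  | zero => simp [ch]
  | succ m ih =>
    obtain ⟨h1, h2⟩ := ih
    have h3 : derivative (ch b lam (m + 2)) = ch b lam (m + 1) +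
        (X - C b) * derivative (ch b lam (m + 1)) - C lam * derivative (ch b lam m) := by
      rw [ch_rec]
      simp
    rw [h3, ch_rec]
    push_cast
    constructor
    · linear_combination (X - C b) * h1 - C lam * h2
    · linear_combination h1

theorem ch_der2 (m : ℕ) :
    derivative (ch b lam (m + 2)) - C lam * derivative (ch b lam m) =
      ((m : R[X]) + 1) * ch b lam (m + 1) := by
  have h3 : derivative (ch b lam (m + 2)) = ch b lam (m + 1) +
      (X - C b) * derivative (ch b lam (m + 1)) - C lam * derivative (ch b lam m) := by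
    rw [ch_rec]
    simp
  rw [h3]
  linear_combination (ch_der b lam m).1

theorem ct_der (k : ℕ) : derivative (ct b lam k) = (k : R[X]) * ch b lam k := by
  rcases k with _ | k
  · simp [ct]
  · rw [ct, derivative_sub, derivative_C_mul, ch_der2]
    push_cast
    ring

theorem ct_one : ct b lam 1 = X - C b := by simp [ct, ch]

theorem ct_rec (n : ℕ) :
    ct b lam (n + 2) = (X - C b) * ct b lam (n + 1) - C lam * ct b lam n := by
  rcases n with _ | n
  · simp only [ct, ch]
    ring
  · rw [ct, ct, ct, ch_rec b lam (n + 2), ch_rec b lam n]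
    ring

theorem ct_mul_ch (j : ℕ) : ∀ d, ct b lam j * ch b lam (j + d) =
    ch b lam (2 * j + d) + C lam ^ j * ch b lam d := by
  induction j using Nat.twoStepInduction with
  | zero => intro d; simp [ct]; ring
  | one => intro d; rw [ct_one, add_comm 1, mul_one, add_comm 2, ch_rec]; ring
  | more j h0 h1 =>
    intro d
    have e0 := h0 (d + 2)
    have e1 := h1 (d + 1)
    rw [show j + (d + 2) = j + 2 + d by ring, show 2 * j + (d + 2) = 2 * j + d + 2 by ring,
      ch_rec b lam d] at e0
    rw [show j + 1 + (d + 1) = j + 2 + d by ring,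
      show 2 * (j + 1) + (d + 1) = 2 * j + d + 2 + 1 by ring] at e1
    rw [ct_rec, show 2 * (j + 2) + d = 2 * j + d + 2 + 2 by ring, ch_rec b lam (2 * j + d + 2)]
    linear_combination (X - C b) * e1 - C lam * e0

theorem ch_mul_ct (j : ℕ) : ∀ d, ch b lam j * ct b lam (j + d) =
    ch b lam (2 * j + d) - C lam ^ j * ch b lam d := by
  induction j using Nat.twoStepInduction with
  | zero => intro d; simp [ch]
  | one => intro d; rw [add_comm 1, mul_one, add_comm 2, ct, ch]; ring
  | more j h0 h1 =>
    intro d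
    have e0 := h0 (d + 2)
    have e1 := h1 (d + 1)
    rw [show j + (d + 2) = j + 2 + d by ring, show 2 * j + (d + 2) = 2 * j + d + 2 by ring,
      ch_rec b lam d] at e0
    rw [show j + 1 + (d + 1) = j + 2 + d by ring,
      show 2 * (j + 1) + (d + 1) = 2 * j + d + 2 + 1 by ring] at e1
    rw [ch_rec b lam j, show 2 * (j + 2) + d = 2 * j + d + 2 + 2 by ring,
      ch_rec b lam (2 * j + d + 2)]
    linear_combination (X - C b) * e1 - C lam * e0

/-- Monic of degree `n`, in terms of coefficients. -/
def Mo (f : R[X]) (n : ℕ) : Prop := f.coeff n = 1 ∧ ∀ k, n < k → f.coeff k = 0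

/-- Degree less than `n`, in terms of coefficients. -/
def Lo (f : R[X]) (n : ℕ) : Prop := ∀ k, n ≤ k → f.coeff k = 0

variable {b lam}

theorem Mo.lo {f : R[X]} {n m : ℕ} (h : Mo f n) (hm : n < m) : Lo f m :=
  fun k hk => h.2 k (by omega)

theorem Mo.add {f g : R[X]} {n : ℕ} (h : Mo f n) (hg : Lo g n) (a : R) : Mo (f + C a * g) n :=
  ⟨by rw [coeff_add, coeff_C_mul, h.1, hg n le_rfl]; ring,
    fun k hk => by rw [coeff_add, coeff_C_mul, h.2 k hk, hg k hk.le]; ring⟩

theorem Mo.mulX {f : R[X]} {n : ℕ} (h : Mo f n) : Mo (X * f) (n + 1) :=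
  ⟨by rw [coeff_X_mul, h.1], fun k hk => by
    obtain ⟨k, rfl⟩ : ∃ j, k = j + 1 := ⟨k - 1, by omega⟩
    rw [coeff_X_mul, h.2 k (by omega)]⟩

theorem Mo.deg {f : R[X]} {n : ℕ} (h : Mo f n) : (f - X ^ n).degree < (n : WithBot ℕ) := by
  rw [degree_lt_iff_coeff_zero]
  intro k hk
  rw [coeff_sub, coeff_X_pow]
  rcases eq_or_lt_of_le hk with rfl | h1
  · simp [h.1]
  · rw [h.2 k h1, if_neg (by omega), sub_zero]

theorem mo_one : Mo (1 : R[X]) 0 :=
  ⟨by simp, fun k hk => by rw [coeff_one, if_neg (by omega)]⟩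

theorem ch_mo (b lam : R) (n : ℕ) : Mo (ch b lam (n + 1)) n ∧ Lo (ch b lam n) n := by
  induction n with
  | zero => exact ⟨mo_one, fun k _ => by simp [ch]⟩
  | succ n ih =>
    refine ⟨?_, ih.1.lo (by omega)⟩
    have := (ih.1.mulX.add (ih.1.lo (Nat.lt_succ_self n)) (-b)).add
      (fun k hk => ih.2 k (by omega)) (-lam)
    convert this using 1
    rw [ch_rec]
    simp only [map_neg]
    ring

theorem ct_mo (b lam : R) (n : ℕ) : Mo (ct b lam (n + 1)) (n + 1) := by
  have := (ch_mo b lam (n + 1)).1.add (fun k hk => (ch_mo b lam n).2 k (by omega)) (-lam)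
  convert this using 1
  rw [ct]
  simp only [map_neg]
  ring

theorem ct_lo (b lam : R) (n : ℕ) : Lo (ct b lam n) (n + 1) := by
  rcases n with _ | n
  · intro k hk
    rw [ct, show (2 : R[X]) = C 2 from rfl, coeff_C, if_neg (by omega)]
  · exact (ct_mo b lam n).lo (by omega)

theorem ch_coeff (w : R) (m : ℕ) : ∀ k, (ch (-(2 * w)) (w ^ 2) m).coeff k =
    ((m + k).choose (2 * k + 1) : R) * w ^ (m - 1 - k) := by
  induction m using Nat.twoStepInduction with
  | zero => intro k; rw [Nat.choose_eq_zero_of_lt (by omega)]; simp [ch]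
  | one =>
    intro k
    rcases k with _ | k
    · simp [ch]
    · rw [Nat.choose_eq_zero_of_lt (by omega), ch, coeff_one]; simp
  | more m h0 h1 =>
    intro k
    rw [ch_rec, sub_mul, coeff_sub, coeff_sub, coeff_C_mul, coeff_C_mul, h0, h1]
    rcases k with _ | k
    · simp only [coeff_X_mul_zero, add_zero, mul_zero, zero_add, Nat.choose_one_right,
        Nat.sub_zero]
      rcases m with _ | m
      · simp
      · simp only [Nat.add_sub_cancel, show m + 1 + 2 - 1 = m + 2 by omega]
        push_cast
        ring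
    · rw [coeff_X_mul, h1]
      have p1 : (m + 2 + (k + 1)).choose (2 * (k + 1) + 1) + (m + (k + 1)).choose (2 * (k + 1) + 1)
          = (m + 1 + k).choose (2 * k + 1) + 2 * (m + 1 + (k + 1)).choose (2 * (k + 1) + 1) := by
        rw [show m + 2 + (k + 1) = m + k + 1 + 1 + 1 by ring,
          show m + 1 + (k + 1) = m + k + 1 + 1 by ring, show m + (k + 1) = m + k + 1 by ring,
          show m + 1 + k = m + k + 1 by ring, show 2 * (k + 1) + 1 = 2 * k + 1 + 1 + 1 by ring,
          Nat.choose_succ_succ' (m + k + 1 + 1), Nat.choose_succ_succ' (m + k + 1) (2 * k + 1),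
          Nat.choose_succ_succ' (m + k + 1) (2 * k + 1 + 1)]
        ring
      have p2 := congrArg (Nat.cast : ℕ → R) p1
      push_cast at p2
      rcases Nat.lt_or_ge (k + 1) m with h | h
      · obtain ⟨e, rfl⟩ : ∃ e, m = k + 2 + e := ⟨m - (k + 2), by omega⟩
        rw [show k + 2 + e + 1 - 1 - k = e + 2 by omega,
          show k + 2 + e + 1 - 1 - (k + 1) = e + 1 by omega,
          show k + 2 + e - 1 - (k + 1) = e by omega,
          show k + 2 + e + 2 - 1 - (k + 1) = e + 2 by omega]
        linear_combination (-w ^ (e + 2)) * p2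
      · rw [Nat.choose_eq_zero_of_lt (show m + (k + 1) < 2 * (k + 1) + 1 by omega)] at p2 ⊢
        rcases eq_or_lt_of_le h with rfl | h'
        · rw [show k + 1 + 1 - 1 - k = 1 by omega, show k + 1 + 1 - 1 - (k + 1) = 0 by omega,
            show k + 1 + 2 - 1 - (k + 1) = 1 by omega]
          push_cast at p2 ⊢
          linear_combination (-w) * p2
        · rw [Nat.choose_eq_zero_of_lt (show m + 1 + (k + 1) < 2 * (k + 1) + 1 by omega)] at p2 ⊢
          rw [show m + 1 - 1 - k = 0 by omega, show m + 2 - 1 - (k + 1) = 0 by omega]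
          push_cast at p2 ⊢
          linear_combination (-1 : R) * p2

end Pool.Agent.P.MP_c5a58e_co
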