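import Pool.Agent.P.MP_c5a58e_co.Gram

namespace Pool.Agent.P.MP_c5a58e_co

open Finset Polynomial

variable {R : Type} [CommRing R]

/-- The product of the numbers `4 t + 1` with `t < i`. -/
def qq (R : Type) [CommRing R] (i : ℕ) : R := ∏ t ∈ range i, (4 * (t : R) + 1)

theorem qq_succ (i : ℕ) : qq R (i + 1) = (4 * i + 1) * qq R i := by
  rw [qq, prod_range_succ, mul_comm]
  rfl

theorem qq_zero : qq R 0 = 1 := rfl

/-- Binomial convolutions. -/
def hh (a b : ℕ) (A B : R) (k : ℕ) : R :=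
  ∑ p ∈ antidiagonal k, (k.choose p.1 : R) * (qq R (p.1 + a) * qq R (p.2 + b) * A ^ p.1 * B ^ p.2)

variable (A B : R)

theorem hh_zero (a b : ℕ) : hh a b A B 0 = qq R a * qq R b := by simp [hh]

theorem hh1 (k : ℕ) : hh 0 0 A B (k + 1) = A * hh 1 0 A B k + B * hh 0 1 A B k := by
  unfold hh
  rw [sum_antidiagonal_choose_succ_mul
    (fun i j => qq R (i + 0) * qq R (j + 0) * A ^ i * B ^ j) k, add_comm, mul_sum, mul_sum]
  congr 1
  · refine sum_congr rfl fun p hp => ?_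
    rw [← Nat.choose_symm_of_eq_add (mem_antidiagonal.1 hp).symm]
    ring
  · refine sum_congr rfl fun p _ => ?_
    ring

theorem hh4 (k : ℕ) : hh 1 0 A B k + hh 0 1 A B k = (4 * k + 2) * hh 0 0 A B k := by
  unfold hh
  rw [← sum_add_distrib, mul_sum]
  refine sum_congr rfl fun p hp => ?_
  have h : (k : R) = p.1 + p.2 := by rw [← mem_antidiagonal.1 hp, Nat.cast_add]
  rw [h, qq_succ, qq_succ, add_zero, add_zero]
  ring

theorem hh2 (k : ℕ) :
    hh 1 0 A B (k + 1) = hh 0 0 A B (k + 1) + 4 * (k + 1) * A * hh 1 0 A B k := by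
  unfold hh
  rw [Nat.sum_antidiagonal_succ, Nat.sum_antidiagonal_succ (n := k), mul_sum,
    add_assoc (G := R), ← sum_add_distrib]
  congr 1
  · simp [qq]
  · refine sum_congr rfl fun p _ => ?_
    have h := congrArg (Nat.cast : ℕ → R) (Nat.add_one_mul_choose_eq k p.1)
    push_cast at h
    simp only [add_zero, qq_succ (p.1 + 1)]
    push_cast
    linear_combination (-4 * qq R (p.1 + 1) * qq R p.2 * A ^ (p.1 + 1) * B ^ p.2) * h

theorem hh3 (k : ℕ) :
    hh 0 1 A B (k + 1) = hh 0 0 A B (k + 1) + 4 * (k + 1) * B * hh 0 1 A B k := by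
  unfold hh
  rw [Nat.sum_antidiagonal_succ', Nat.sum_antidiagonal_succ' (n := k), mul_sum,
    add_assoc (G := R), ← sum_add_distrib]
  congr 1
  · simp [qq]
  · refine sum_congr rfl fun p hp => ?_
    have h := congrArg (Nat.cast : ℕ → R) (Nat.choose_mul_succ_eq k p.1)
    rw [show k + 1 - p.1 = p.2 + 1 by have := mem_antidiagonal.1 hp; omega] at h
    push_cast at h
    simp only [add_zero, qq_succ (p.2 + 1)]
    push_cast
    linear_combination (-4 * qq R p.1 * qq R (p.2 + 1) * A ^ p.1 * B ^ (p.2 + 1)) * h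

variable [Algebra ℚ R]

/-- The inverse of `qq`. -/
noncomputable def iq (R : Type) [CommRing R] [Algebra ℚ R] (i : ℕ) : R :=
  algebraMap ℚ R (qq ℚ i)⁻¹

theorem qq_ne (i : ℕ) : qq ℚ i ≠ 0 := prod_ne_zero_iff.2 fun t _ => by positivity

theorem qq_iq (i : ℕ) : qq R i * iq R i = 1 := by
  have : qq R i = algebraMap ℚ R (qq ℚ i) := by simp [qq, map_prod, map_ofNat]
  rw [this, iq, ← map_mul, mul_inv_cancel₀ (qq_ne i), map_one]

theorem iq_succ (i : ℕ) : iq R i = (4 * i + 1) * iq R (i + 1) := by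
  have h := qq_iq (R := R) (i + 1)
  rw [qq_succ] at h
  linear_combination (-iq R i) * h + (4 * i + 1) * iq R (i + 1) * qq_iq (R := R) i

theorem iq_one : iq R 1 = 1 := by simp [iq, qq]

/-- The three families of moments. -/
noncomputable def m1 (k : ℕ) : R := iq R (k + 1) * hh 1 0 A B k
/-- The three families of moments. -/
noncomputable def m0 (k : ℕ) : R := iq R (k + 1) * hh 0 0 A B k
/-- The three families of moments. -/
noncomputable def m2 (k : ℕ) : R := iq R (k + 2) * hh 0 1 A B k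

omit [Algebra ℚ R] in
theorem fn_der (x : ℕ → R) (k : ℕ) :
    fn x (derivative (X ^ (k + 1))) = (k + 1) * x k := by
  rw [derivative_X_pow_succ, fn_C_mul, fn_pow]

omit [Algebra ℚ R] in
theorem fn_Xder (x : ℕ → R) (k : ℕ) : fn x (X * derivative (X ^ k)) = k * x k := by
  rcases k with _ | k
  · simp
  · rw [fn_X_mul, fn_der]
    push_cast
    ring

theorem rel1 (f : R[X]) :
    fn (m1 A B) (X * f) - A * fn (m1 A B) f = B * fn (m2 A B) f :=
  lin_ext (φ := fn (m1 A B) ∘ₗ LinearMap.mulLeft R X - A • fn (m1 A B)) (ψ := B • fn (m2 A B))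
    (fun k => by
      simp only [LinearMap.sub_apply, LinearMap.smul_apply, LinearMap.comp_apply,
        LinearMap.mulLeft_apply, ← pow_succ', fn_pow, smul_eq_mul, m1, m2]
      rw [hh2, hh1, iq_succ (k + 1)]
      push_cast
      ring) f

theorem rel2 (f : R[X]) : fn (m1 A B) f = 4 * fn (m0 A B) (X * derivative f) + fn (m0 A B) f -
    4 * B * fn (m2 A B) (derivative f) :=
  lin_ext (ψ := (4 : R) • fn (m0 A B) ∘ₗ LinearMap.mulLeft R X ∘ₗ derivative + fn (m0 A B) -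
    (4 * B) • fn (m2 A B) ∘ₗ derivative)
    (fun k => by
      simp only [LinearMap.sub_apply, LinearMap.add_apply, LinearMap.smul_apply,
        LinearMap.comp_apply, LinearMap.mulLeft_apply, fn_pow, smul_eq_mul, fn_Xder]
      rcases k with _ | k
      · simp [m1, m0, hh_zero, qq]
      · rw [fn_der]
        simp only [m1, m0, m2]
        have h4 := hh4 A B (k + 1)
        rw [hh3] at h4
        push_cast at h4 ⊢
        linear_combination iq R (k + 2) * h4) f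

theorem rel3 (f : R[X]) : fn (m0 A B) f = 4 * fn (m2 A B) (X * derivative f) -
    4 * B * fn (m2 A B) (derivative f) + 5 * fn (m2 A B) f :=
  lin_ext (ψ := (4 : R) • fn (m2 A B) ∘ₗ LinearMap.mulLeft R X ∘ₗ derivative -
    (4 * B) • fn (m2 A B) ∘ₗ derivative + (5 : R) • fn (m2 A B))
    (fun k => by
      simp only [LinearMap.sub_apply, LinearMap.add_apply, LinearMap.smul_apply,
        LinearMap.comp_apply, LinearMap.mulLeft_apply, fn_pow, smul_eq_mul, fn_Xder]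
      rcases k with _ | k
      · have := iq_succ (R := R) 1
        simp only [m0, m2, hh_zero, qq]
        simp
        linear_combination this
      · rw [fn_der]
        simp only [m0, m2]
        rw [hh3, iq_succ (k + 2)]
        push_cast
        ring) f

/-- The four sequences in closed form. -/
noncomputable def cQ (w δ : R) (m : ℕ) : R := qq R (m + 1) *
  (fn (m1 ((1 - w) ^ 2) δ) (ch (-(2 * w)) (w ^ 2) (m + 1)) -
    w ^ 2 * fn (m1 ((1 - w) ^ 2) δ) (ch (-(2 * w)) (w ^ 2) m))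
/-- The four sequences in closed form. -/
noncomputable def cd (w δ : R) (m : ℕ) : R := qq R (m + 1) *
  (fn (m0 ((1 - w) ^ 2) δ) (ch (-(2 * w)) (w ^ 2) (m + 1)) -
    w * fn (m0 ((1 - w) ^ 2) δ) (ch (-(2 * w)) (w ^ 2) m))
/-- The four sequences in closed form. -/
noncomputable def cE (w δ : R) (m : ℕ) : R := qq R (m + 2) *
  fn (m2 ((1 - w) ^ 2) δ) (ch (-(2 * w)) (w ^ 2) (m + 1))
/-- The four sequences in closed form. -/
noncomputable def cρ (w δ : R) (m : ℕ) : R := 4 * qq R (m + 1) *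
  (fn (m2 ((1 - w) ^ 2) δ) (derivative (ch (-(2 * w)) (w ^ 2) (m + 1))) -
    w * fn (m2 ((1 - w) ^ 2) δ) (derivative (ch (-(2 * w)) (w ^ 2) m)))

omit [Algebra ℚ R] in
theorem ap_rec (x : ℕ → R) (w : R) (m : ℕ) :
    fn x (ch (-(2 * w)) (w ^ 2) (m + 2)) = fn x (X * ch (-(2 * w)) (w ^ 2) (m + 1)) +
      2 * w * fn x (ch (-(2 * w)) (w ^ 2) (m + 1)) - w ^ 2 * fn x (ch (-(2 * w)) (w ^ 2) m) := by
  rw [ch_rec, sub_mul, map_sub, map_sub, fn_C_mul, fn_C_mul]
  ring

omit [Algebra ℚ R] in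
theorem ap_i1 (x : ℕ → R) (w : R) (m : ℕ) :
    fn x (derivative (ch (-(2 * w)) (w ^ 2) (m + 2))) -
      w ^ 2 * fn x (derivative (ch (-(2 * w)) (w ^ 2) m)) =
      (m + 1) * fn x (ch (-(2 * w)) (w ^ 2) (m + 1)) := by
  have h := congrArg (fn x) (ch_der2 (-(2 * w)) (w ^ 2) m)
  rw [map_sub, fn_C_mul, add_mul, map_add, fn_nat_mul, one_mul] at h
  linear_combination h

omit [Algebra ℚ R] in
theorem ap_i3 (x : ℕ → R) (w : R) (m : ℕ) :
    fn x (X * derivative (ch (-(2 * w)) (w ^ 2) (m + 1))) +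
      2 * w * fn x (derivative (ch (-(2 * w)) (w ^ 2) (m + 1))) -
      2 * w ^ 2 * fn x (derivative (ch (-(2 * w)) (w ^ 2) m)) =
      m * fn x (ch (-(2 * w)) (w ^ 2) (m + 1)) := by
  have h := congrArg (fn x) (ch_der (-(2 * w)) (w ^ 2) m).1
  rw [map_sub, sub_mul, map_sub, fn_C_mul, fn_nat_mul, two_mul (C _), add_mul, map_add,
    fn_C_mul] at h
  linear_combination h

omit [Algebra ℚ R] in
theorem ap_i5 (x : ℕ → R) (w : R) (m : ℕ) :
    2 * fn x (derivative (ch (-(2 * w)) (w ^ 2) (m + 1))) -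
      fn x (X * derivative (ch (-(2 * w)) (w ^ 2) m)) -
      2 * w * fn x (derivative (ch (-(2 * w)) (w ^ 2) m)) =
      (m + 1) * fn x (ch (-(2 * w)) (w ^ 2) m) := by
  have h := congrArg (fn x) (ch_der (-(2 * w)) (w ^ 2) m).2
  rw [map_sub, sub_mul, map_sub, fn_C_mul, add_mul, map_add, fn_nat_mul, one_mul,
    two_mul (derivative _), map_add] at h
  linear_combination h

theorem closed_sys (w δ : R) : Sys w δ (cQ w δ) (cd w δ) (cE w δ) (cρ w δ) := by
  have f1 : ∀ x : ℕ → R, fn x 1 = x 0 := fun x => by rw [← pow_zero (X : R[X]), fn_pow]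
  refine ⟨?_, ?_, ?_, ?_, fun m => ?_, fun m => ?_, fun m => ?_, fun m => ?_⟩
  · simp [cQ, ch, f1, m1, hh_zero, qq, iq_one]
  · simp [cd, ch, f1, m0, hh_zero, qq, iq_one]
  · have := qq_iq (R := R) 2
    simp only [cE, ch, f1, m2, hh_zero, zero_add]
    rw [← mul_assoc, this]
    simp [qq]
  · simp [cρ, ch]
  · have r1 := rel1 ((1 - w) ^ 2) δ (ch (-(2 * w)) (w ^ 2) (m + 1))
    simp only [cQ, cE]
    rw [ap_rec, qq_succ (m + 1)]
    push_cast
    linear_combination (4 * m + 5) * qq R (m + 1) * r1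
  · have r1 := rel1 ((1 - w) ^ 2) δ (ch (-(2 * w)) (w ^ 2) (m + 1))
    have r0 := ap_rec (m1 ((1 - w) ^ 2) δ) w m
    have r22 := rel2 ((1 - w) ^ 2) δ (ch (-(2 * w)) (w ^ 2) (m + 2))
    have r21 := rel2 ((1 - w) ^ 2) δ (ch (-(2 * w)) (w ^ 2) (m + 1))
    have r20 := rel2 ((1 - w) ^ 2) δ (ch (-(2 * w)) (w ^ 2) m)
    have r31 := rel3 ((1 - w) ^ 2) δ (ch (-(2 * w)) (w ^ 2) (m + 1))
    have a1 := ap_i3 (m0 ((1 - w) ^ 2) δ) w (m + 1)
    have b1 := ap_i5 (m0 ((1 - w) ^ 2) δ) w (m + 1)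
    have a0 := ap_i3 (m0 ((1 - w) ^ 2) δ) w m
    have b0 := ap_i5 (m0 ((1 - w) ^ 2) δ) w m
    have i1 := ap_i1 (m2 ((1 - w) ^ 2) δ) w m
    have i3 := ap_i3 (m2 ((1 - w) ^ 2) δ) w m
    simp only [cQ, cE, cd, cρ]
    rw [qq_succ (m + 1)]
    push_cast at a1 b1 ⊢
    linear_combination qq R (m + 1) * (r1 + r0 - r22 - (w - w ^ 2) * r21 + w ^ 3 * r20 -
      4 * (a1 - w * b1) + 4 * w ^ 2 * (a0 - w * b0) + (2 * w - 2 * w ^ 2) * r31 +
      8 * (w - w ^ 2) * i3 + 4 * δ * i1)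
  · have i1 := ap_i1 (m2 ((1 - w) ^ 2) δ) w m
    simp only [cE, cρ]
    rw [qq_succ (m + 1)]
    push_cast
    linear_combination 4 * (4 * m + 5) * qq R (m + 1) * i1
  · have r32 := rel3 ((1 - w) ^ 2) δ (ch (-(2 * w)) (w ^ 2) (m + 2))
    have r31 := rel3 ((1 - w) ^ 2) δ (ch (-(2 * w)) (w ^ 2) (m + 1))
    have i1 := ap_i1 (m2 ((1 - w) ^ 2) δ) w m
    have i3 := ap_i3 (m2 ((1 - w) ^ 2) δ) w m
    have i4 := ap_i3 (m2 ((1 - w) ^ 2) δ) w (m + 1)
    simp only [cE, cd, cρ]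
    rw [qq_succ (m + 2), qq_succ (m + 1)]
    push_cast at i4 ⊢
    linear_combination (4 * m + 5) * qq R (m + 1) *
      (-r32 + w * r31 + (4 * δ + 8 * w) * i1 - 4 * i4 + 4 * w * i3)

omit [Algebra ℚ R] in
theorem fn_eq_sum (x : ℕ → R) (f : R[X]) (n : ℕ) (h : Lo f n) :
    fn x f = ∑ k ∈ range n, f.coeff k * x k := by
  have h1 : f = ∑ k ∈ range n, C (f.coeff k) * X ^ k := by
    ext k
    rw [finsetSum_coeff]
    simp only [coeff_C_mul, coeff_X_pow, mul_ite, mul_one, mul_zero, sum_ite_eq, mem_range]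
    split_ifs with hk
    · rfl
    · exact h k (by omega)
  conv_lhs => rw [h1]
  simp only [map_sum, fn_C_mul, fn_pow]

omit [Algebra ℚ R] in
theorem qq_shift (i : ℕ) : qq R (i + 1) = ∏ t ∈ range i, (4 * (t : R) + 5) := by
  rw [qq, prod_range_succ']
  simp only [Nat.cast_zero, mul_zero, zero_add, mul_one]
  refine prod_congr rfl fun t _ => ?_
  push_cast
  ring

theorem cQ_eq (w δ : R) (m : ℕ) : cQ w δ m = ∑ k ∈ range (m + 1),
    (((m + k + 1).choose (2 * k + 1) : R) - w * ((m + k).choose (2 * k + 1) : R)) * w ^ (m - k) *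
      (∏ t ∈ Ico k m, (4 * (t : R) + 5)) *
      ∑ i ∈ range (k + 1), (k.choose i : R) * (∏ t ∈ range i, (4 * (t : R) + 5)) *
        (∏ t ∈ range (k - i), (4 * (t : R) + 1)) * (1 - w) ^ (2 * i) * δ ^ (k - i) := by
  rw [cQ, fn_eq_sum _ _ (m + 1) (ch_mo _ _ (m + 1)).2,
    fn_eq_sum _ _ (m + 1) fun k hk => (ch_mo _ _ m).2 k (by omega), mul_sum, ← sum_sub_distrib,
    mul_sum]
  refine sum_congr rfl fun k hk => ?_
  have hk' : k ≤ m := Nat.lt_succ_iff.1 (mem_range.1 hk)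
  have h1 : qq R (m + 1) * iq R (k + 1) = ∏ t ∈ Ico k m, (4 * (t : R) + 5) := by
    rw [qq_shift, ← prod_range_mul_prod_Ico _ hk', ← qq_shift]
    linear_combination (∏ t ∈ Ico k m, (4 * (t : R) + 5)) * qq_iq (R := R) (k + 1)
  have h2 : hh 1 0 ((1 - w) ^ 2) δ k =
      ∑ i ∈ range (k + 1), (k.choose i : R) * (∏ t ∈ range i, (4 * (t : R) + 5)) *
        (∏ t ∈ range (k - i), (4 * (t : R) + 1)) * (1 - w) ^ (2 * i) * δ ^ (k - i) := by
    rw [hh, Nat.sum_antidiagonal_eq_sum_range_succ_mk]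
    refine sum_congr rfl fun i _ => ?_
    rw [qq_shift, add_zero, qq, pow_mul]
    ring
  have h3 : w ^ 2 * (((m + k).choose (2 * k + 1) : R) * w ^ (m - 1 - k)) =
      w * ((m + k).choose (2 * k + 1) : R) * w ^ (m - k) := by
    rcases eq_or_lt_of_le hk' with rfl | h
    · rw [Nat.choose_eq_zero_of_lt (by omega)]
      simp
    · rw [show m - k = m - 1 - k + 1 by omega]
      ring
  rw [ch_coeff, ch_coeff, m1, ← h1, ← h2, show m + 1 + k = m + k + 1 by ring,
    show m + 1 - 1 - k = m - k by omega]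
  linear_combination (-(qq R (m + 1) * iq R (k + 1) * hh 1 0 ((1 - w) ^ 2) δ k)) * h3

theorem main (b0 b lam u δ : R) (hc : (b0 - b) ^ 2 = lam * (δ + 4 * (1 - u))) (m : ℕ) :
    hankelPf 3 (fun n => paths b0 b (u * lam) lam n 0) (m + 1) =
      lam ^ (m * (m + 1)) * u ^ m * ∑ k ∈ range (m + 1),
        (((m + k + 1).choose (2 * k + 1) : R) - (1 - u) * ((m + k).choose (2 * k + 1) : R)) *
          (1 - u) ^ (m - k) * (∏ t ∈ Ico k m, (4 * (t : R) + 5)) *
          ∑ i ∈ range (k + 1), (k.choose i : R) * (∏ t ∈ range i, (4 * (t : R) + 5)) *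
            (∏ t ∈ range (k - i), (4 * (t : R) + 1)) * u ^ (2 * i) * δ ^ (k - i) := by
  rw [hankel_sys (closed_sys (1 - u) δ) (by ring) hc, cQ_eq, sub_sub_cancel]

end Pool.Agent.P.MP_c5a58e_co
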