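import Pool.Agent.P.MP_c5a58e_co.Gram

/-!
Pfaffians of skew matrices whose support is a union of paths, and the columns of the weighted
Motzkin triangle.
-/

namespace Pool.Agent.P.MP_c5a58e_co

section paths

open Finset Equiv

variable {R : Type} [CommRing R] [Algebra ℚ R] {ι : Type}

/-- The sequence without its entry number `p`. -/
def rm (p : ℕ) (v : ℕ → ι) (i : ℕ) : ι := if i < p then v i else v (i + 1)

theorem pN_congr (A : ι → ι → R) (n : ℕ) {v w : ℕ → ι} (h : ∀ i < 2 * n, v i = w i) :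
    pN A n v = pN A n w := by
  unfold pN
  congr 1
  funext i j
  rw [h _ i.2, h _ j.2]

theorem pN_front (A : ι → ι → R) (n p : ℕ) (hp : p < 2 * n + 2) (v : ℕ → ι) :
    pN A (n + 1) v = (-1) ^ p * pN A (n + 1) (cs (v p) (rm p v)) := by
  let P : Fin (2 * n + 1 + 1) := ⟨p, hp⟩
  have h : ∀ i : Fin (2 * n + 1 + 1), cs (v p) (rm p v) i.1 = v (P.cycleRange.symm i).1 := by
    refine Fin.cases ?_ fun j => ?_
    · rw [Fin.cycleRange_symm_zero]; rfl
    · rw [Fin.cycleRange_symm_succ, Fin.val_succ, cs_succ, rm, Fin.succAbove]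
      by_cases hj : j.1 < p
      · rw [if_pos hj, if_pos (show j.castSucc < P from hj)]; rfl
      · rw [if_neg hj, if_neg (show ¬ j.castSucc < P from hj)]; rfl
  have h1 := Pf_perm (n := n + 1) (fun i j => A (v i.1) (v j.1)) P.cycleRange.symm
  have h2 : pN A (n + 1) (cs (v p) (rm p v)) = (-1) ^ p * pN A (n + 1) v := by
    have h3 : ((Perm.sign P.cycleRange.symm : ℤ) : R) = (-1) ^ p := by
      rw [Perm.sign_symm, Fin.sign_cycleRange]
      simp [P]
    rw [← h3]
    refine Eq.trans ?_ h1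
    unfold pN
    congr 1
    funext i j
    rw [h i, h j]
  rw [h2, ← mul_assoc, ← mul_pow]
  simp

theorem pN_single {A : ι → ι → R} (hA : ∀ x y, A x y = -A y x) (n q : ℕ) (hq : q < 2 * n + 1)
    (v : ℕ → ι) (h : ∀ i < 2 * n + 1, i ≠ q → A (v 0) (v (i + 1)) = 0) :
    pN A (n + 1) v = (-1) ^ q * A (v 0) (v (q + 1)) * pN A n (rm q fun i => v (i + 1)) := by
  have e : rm (q + 1) v = cs (v 0) (rm q fun i => v (i + 1)) := by
    funext i
    rcases i with _ | i
    · simp [rm]
    · simp [rm]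
  rw [pN_front A n (q + 1) (by omega), e, pN_s01, pN_cs hA,
    ex_congr _ _ _ (g := fun i => A (v 0) (v (q + 1)) * dl 0 i), ex_mul, ex_dl0]
  · ring
  · rintro (_ | i) hi
    · simp [dl]
    · rw [cs_succ, rm, dl, if_neg (Nat.succ_ne_zero i), mul_zero]
      split_ifs with h1
      · exact h i (by omega) (by omega)
      · exact h (i + 1) (by omega) (by omega)

omit [Algebra ℚ R] in
theorem tm_partner {n : ℕ} {A : Fin (2 * n) → Fin (2 * n) → R} (hA : ∀ i j, A i j = -A j i)
    (σ : Perm (Fin (2 * n))) (h : tm A σ ≠ 0) (u : Fin (2 * n)) :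
    ∃ j, A u j ≠ 0 ∧ (σ.symm j).1 / 2 = (σ.symm u).1 / 2 ∧ (σ.symm j).1 ≠ (σ.symm u).1 := by
  have hf : ∀ i, A (σ (ev i)) (σ (od i)) ≠ 0 := fun i h0 =>
    h (by rw [tm, prod_eq_zero (mem_univ i) h0, mul_zero])
  have hp := (σ.symm u).2
  rcases Nat.even_or_odd' (σ.symm u).1 with ⟨i, hi | hi⟩
  · have e : σ (ev ⟨i, by omega⟩) = u := by
      rw [← Equiv.eq_symm_apply]; exact Fin.ext hi.symm
    refine ⟨σ (od ⟨i, by omega⟩), e ▸ hf _, ?_⟩
    rw [symm_apply_apply, hi, od]
    simp only
    omega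
  · have e : σ (od ⟨i, by omega⟩) = u := by
      rw [← Equiv.eq_symm_apply]; exact Fin.ext hi.symm
    refine ⟨σ (ev ⟨i, by omega⟩), fun h0 => hf ⟨i, by omega⟩ (by rw [hA, e, h0, neg_zero]), ?_⟩
    rw [symm_apply_apply, hi, ev]
    simp only
    omega

theorem Pf_two {n : ℕ} {M : ℕ → ℕ → R} (hM : ∀ i j, M i j = -M j i) (u w c : ℕ) (hu : u < 2 * n)
    (hw : w < 2 * n) (huw : c < 2 * n → u ≠ w) (h1 : ∀ j < 2 * n, M u j ≠ 0 → j = c)
    (h2 : ∀ j < 2 * n, M w j ≠ 0 → j = c) : (Pf n fun i j => M i.1 j.1) = 0 := by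
  rw [Pf_eq, sum_eq_zero, smul_zero]
  intro σ _
  by_contra h
  obtain ⟨j, a1, a2, a3⟩ := tm_partner (fun i j => hM _ _) σ h ⟨u, hu⟩
  obtain ⟨j', b1, b2, b3⟩ := tm_partner (fun i j => hM _ _) σ h ⟨w, hw⟩
  have e1 := h1 _ j.2 a1
  have e2 : j' = j := Fin.ext ((h2 _ j'.2 b1).trans e1.symm)
  rw [e2] at b2 b3
  have e3 : σ.symm ⟨u, hu⟩ = σ.symm ⟨w, hw⟩ := Fin.ext (by omega)
  exact huw (e1 ▸ j.2) (congrArg Fin.val (σ.symm.injective e3))

/-- The leading Pfaffians, with the labels in decreasing order. -/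
noncomputable def dP (M : ℕ → ℕ → R) (n : ℕ) : R :=
  pN (fun x y => M y x) n fun i => 2 * n - 1 - i

theorem dP_eq (M : ℕ → ℕ → R) (n : ℕ) : dP M n = Pf n fun i j => M i.1 j.1 := by
  rw [← Pf_rev]
  unfold dP pN
  congr 1
  funext i j
  simp only [Fin.val_rev]
  congr 1 <;> omega

theorem dP_block {M : ℕ → ℕ → R} (hM : ∀ i j, M i j = -M j i) (n k : ℕ)
    (h : ∀ r < k, ∀ a < 2 * n + k + r, a ≠ 2 * n + r → M a (2 * n + k + r) = 0) :
    dP M (n + k) = (-1) ^ k.choose 2 * (∏ r ∈ range k, M (2 * n + r) (2 * n + k + r)) *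
      dP M n := by
  have key : ∀ r ≤ k, (pN (fun x y => M y x) (n + r)
      fun i => if i < r then 2 * n + k + r - 1 - i else 2 * n + 2 * r - 1 - i) =
      (-1) ^ r.choose 2 * (∏ s ∈ range r, M (2 * n + s) (2 * n + k + s)) * dP M n := by
    intro r
    induction r with
    | zero => intro _; simp [dP]
    | succ r ih =>
      intro hr
      rw [← add_assoc, pN_single (fun x y => hM y x) (n + r) r (by omega), prod_range_succ,
        pN_congr _ _ (w := fun i => if i < r then 2 * n + k + r - 1 - i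
          else 2 * n + 2 * r - 1 - i), ih (by omega), if_pos (Nat.succ_pos r),
        if_neg (lt_irrefl _), Nat.choose_succ_succ' r 1, Nat.choose_one_right,
        show 2 * n + 2 * (r + 1) - 1 - (r + 1) = 2 * n + r by omega,
        show 2 * n + k + (r + 1) - 1 - 0 = 2 * n + k + r by omega]
      · ring
      · intro i hi
        simp only [rm]
        split_ifs <;> omega
      · intro i hi hq
        rw [if_pos (Nat.succ_pos r), show 2 * n + k + (r + 1) - 1 - 0 = 2 * n + k + r by omega]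
        refine h r (by omega) _ ?_ ?_ <;> split_ifs <;> omega
  rw [← key k le_rfl, dP]
  refine pN_congr _ _ fun i hi => ?_
  split_ifs <;> omega

theorem dP_nest {M : ℕ → ℕ → R} (hM : ∀ i j, M i j = -M j i) (n : ℕ)
    (h : ∀ r < n, ∀ a < n + r, n - r ≤ a → M a (n + r) = 0) :
    dP M n = ∏ r ∈ range n, M (n - 1 - r) (n + r) := by
  have key : ∀ r ≤ n, (pN (fun x y => M y x) r fun i => n + r - 1 - i) =
      ∏ s ∈ range r, M (n - 1 - s) (n + s) := by
    intro r
    induction r with
    | zero => intro _; simp [pN_zero]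
    | succ r ih =>
      intro hr
      rw [pN_single (fun x y => hM y x) r (2 * r) (by omega), prod_range_succ,
        pN_congr _ _ (w := fun i => n + r - 1 - i), ih (by omega),
        show n + (r + 1) - 1 - (2 * r + 1) = n - 1 - r by omega,
        show n + (r + 1) - 1 - 0 = n + r by omega, pow_mul]
      · ring
      · intro i hi
        rw [rm, if_pos hi]
        omega
      · intro i hi hq
        rw [show n + (r + 1) - 1 - 0 = n + r by omega]
        exact h r (by omega) _ (by omega) (by omega)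
  rw [← key n le_rfl, dP, two_mul]

section

variable {M : ℕ → ℕ → R} {k e : ℕ} {c g : ℕ → R}

/-- The shape of the Gram matrix: reflection entries and translation entries. -/
structure Shape (M : ℕ → ℕ → R) (k e : ℕ) (c : ℕ → R) : Prop where
  skew : ∀ i j, M i j = -M j i
  val : ∀ a d, M a (a + d) = (if 2 * a + d + e = k then (d : R) else 0) + if d = k then c a else 0
  c0 : e = 0 → c 0 = 0
  he : e ≤ 2
  hk : 0 < k

omit [Algebra ℚ R] in
theorem Shape.zero (h : Shape M k e c) {a b : ℕ} (h1 : a + b + e = k → a = b) (h2 : b ≠ a + k)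
    (h3 : a ≠ b + k) : M a b = 0 := by
  have key : ∀ a d, (a + (a + d) + e = k → d = 0) → d ≠ k → M a (a + d) = 0 := by
    intro a d k1 k2
    rw [h.val, if_neg k2, add_zero]
    split_ifs with k3
    · rw [k1 (by omega), Nat.cast_zero]
    · rfl
  rcases le_total a b with hab | hab
  · obtain ⟨d, rfl⟩ := Nat.exists_eq_add_of_le hab
    exact key a d (by omega) (by omega)
  · obtain ⟨d, rfl⟩ := Nat.exists_eq_add_of_le hab
    rw [h.skew, key b d (by omega) (by omega), neg_zero]

theorem Shape.base (h : Shape M k e c) {t : ℕ} (ht : t < k) :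
    dP M t = if t = 0 ∨ 2 * t + e = k + 1 then ∏ r ∈ range t, (2 * (r : R) + 1) else 0 := by
  have he := h.he
  split_ifs with h1
  · rcases h1 with rfl | h1
    · simp [dP, pN_zero]
    · rw [dP_nest h.skew t fun r hr a ha ha' => h.zero (by omega) (by omega) (by omega)]
      refine prod_congr rfl fun r hr => ?_
      have hr' := mem_range.1 hr
      rw [show t + r = t - 1 - r + (2 * r + 1) by omega, h.val, if_pos (by omega)]
      split_ifs with h2
      · rw [show t - 1 - r = 0 by omega, h.c0 (by omega)]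
        push_cast
        ring
      · push_cast
        ring
  · rw [dP_eq]
    rcases Nat.lt_or_ge (2 * t + e) (k + 1) with h2 | h2
    · exact Pf_two h.skew 0 0 (2 * t) (by omega) (by omega) (by omega)
        (fun j hj h3 => absurd (h.zero (by omega) (by omega) (by omega)) h3)
        (fun j hj h3 => absurd (h.zero (by omega) (by omega) (by omega)) h3)
    · rcases Nat.lt_or_ge e 2 with h4 | h4
      · refine Pf_two h.skew (k - 1) (k + 1 - e) (1 - e) (by omega) (by omega) (by omega)
          (fun j hj h3 => ?_) (fun j hj h3 => ?_)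
        · by_contra h5
          exact h3 (h.zero (by omega) (by omega) (by omega))
        · by_contra h5
          exact h3 (h.zero (by omega) (by omega) (by omega))
      · exact Pf_two h.skew (k - 1) (k - 1) (2 * t) (by omega) (by omega) (by omega)
          (fun j hj h3 => absurd (h.zero (by omega) (by omega) (by omega)) h3)
          (fun j hj h3 => absurd (h.zero (by omega) (by omega) (by omega)) h3)

theorem Shape.all (h : Shape M k e c) (t m : ℕ) :
    dP M (t + m * k) = (-1) ^ (m * k.choose 2) * (∏ i ∈ range m, ∏ j ∈ range k,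
      M (2 * t + 2 * k * i + j) (2 * t + 2 * k * i + j + k)) * dP M t := by
  induction m with
  | zero => simp
  | succ m ih =>
    rw [add_mul, one_mul, ← add_assoc, dP_block h.skew _ k fun r hr a ha ha' =>
      h.zero (by omega) (by omega) (by omega), ih, prod_range_succ, add_mul, one_mul, pow_add]
    have : ∏ r ∈ range k, M (2 * (t + m * k) + r) (2 * (t + m * k) + k + r) =
        ∏ j ∈ range k, M (2 * t + 2 * k * m + j) (2 * t + 2 * k * m + j + k) :=
      prod_congr rfl fun j _ => by congr 1 <;> ring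
    rw [this]
    ring

end

end paths

open Finset Polynomial

variable {R : Type} [CommRing R]

/-- The sequence `x (m + 1) - c * x m`. -/
def sh (c : R) (x : ℕ → R) : ℕ → R := fun m => x (m + 1) - c * x m

theorem fn_sh (c : R) (x : ℕ → R) (f : R[X]) : fn (sh c x) f = fn x ((X - C c) * f) := by
  have := fn_lin (fun n => x (n + 1)) x x 1 (-c) 0 f
  rw [sub_mul, map_sub, fn_X_mul, fn_C_mul]
  simp only [one_mul, zero_mul, add_zero, neg_mul, ← sub_eq_add_neg] at this
  exact this

theorem fn_sh_iter (c : R) (j : ℕ) : ∀ (x : ℕ → R) (f : R[X]),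
    fn ((sh c)^[j] x) f = fn x ((X - C c) ^ j * f) := by
  induction j with
  | zero => intro x f; simp
  | succ j ih =>
    intro x f
    rw [Function.iterate_succ_apply, ih, fn_sh, pow_succ', mul_assoc]

theorem ch_add (b lam : R) (a : ℕ) : ∀ n, ch b lam (a + 1) * ch b lam (n + 1) -
    C lam * ch b lam a * ch b lam n = ch b lam (a + n + 1) := by
  induction a with
  | zero => intro n; simp [ch]
  | succ a ih =>
    intro n
    have := ih (n + 1)
    rw [ch_rec b lam n, show a + (n + 1) + 1 = a + 1 + n + 1 by ring] at this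
    rw [ch_rec b lam a]
    linear_combination this

theorem ch_oc (b lam : R) (d a : ℕ) : ch b lam (a + 1) * ch b lam (a + d) -
    ch b lam a * ch b lam (a + d + 1) = C lam ^ a * ch b lam d := by
  induction a with
  | zero => simp [ch]
  | succ a ih =>
    rw [show a + 1 + d = a + d + 1 by ring, ch_rec b lam a, ch_rec b lam (a + d)]
    linear_combination C lam * ih

/-- A monic basis in which the skew form with the weight `W` is sparse. -/
structure Fam (b lam : R) (W : R[X]) (e : ℕ) (p : ℕ → R[X]) (c : ℕ → R) : Prop where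
  mo : ∀ a, Mo (p a) a
  key : ∀ a d, W * (p a * derivative (p (a + d)) - derivative (p a) * p (a + d)) =
    (d : R[X]) * ch b lam (2 * a + d + e) + ((2 * a + d + e : ℕ) : R[X]) * (C (c a) * ch b lam d)

theorem fam0 (b lam : R) : Fam b lam 1 0 (fun a => if a = 0 then 1 else ct b lam a)
    fun a => if a = 0 then 0 else lam ^ a := by
  refine ⟨fun a => ?_, fun a d => ?_⟩
  · rcases a with _ | a
    · exact mo_one
    · exact ct_mo b lam a
  · rcases a with _ | a
    · rcases d with _ | d
      · simp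
      · simp [ct_der]
    · rw [if_neg (by omega), if_neg (by omega), if_neg (by omega), ct_der, ct_der, map_pow,
        add_zero]
      have h1 := ct_mul_ch b lam (a + 1) d
      have h2 := ch_mul_ct b lam (a + 1) d
      push_cast
      linear_combination ((a : R[X]) + 1 + d) * h1 - ((a : R[X]) + 1) * h2

theorem fam1 (b lam ρ : R) (h : lam = ρ ^ 2) : Fam b lam (X - C (b - 2 * ρ)) 1
    (fun a => ch b lam (a + 1) - C ρ * ch b lam a) fun a => ρ ^ (2 * a + 1) := by
  have hl : (C lam : R[X]) = C ρ ^ 2 := by rw [h, map_pow]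
  have hd : ∀ a : ℕ, (X - C (b - 2 * ρ)) * derivative (ch b lam (a + 1) - C ρ * ch b lam a) =
      (a : R[X]) * ch b lam (a + 1) + ((a : R[X]) + 1) * C ρ * ch b lam a := by
    intro a
    obtain ⟨h1, h2⟩ := ch_der b lam a
    rw [hl] at h1
    rw [derivative_sub, derivative_C_mul, map_sub, map_mul, show (C 2 : R[X]) = 2 from rfl]
    linear_combination h1 + C ρ * h2
  refine ⟨fun a => ?_, fun a d => ?_⟩
  · have := (ch_mo b lam a).1.add (ch_mo b lam a).2 (-ρ)
    convert this using 1
    simp only [map_neg]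
    ring
  · have h1 := hd a
    have h2 := hd (a + d)
    have h3 := ch_add b lam a (a + d)
    have h4 := ch_oc b lam d a
    rw [hl] at h3 h4
    rw [show a + (a + d) + 1 = 2 * a + d + 1 by ring] at h3
    rw [map_pow]
    push_cast at h2 ⊢
    linear_combination (ch b lam (a + 1) - C ρ * ch b lam a) * h2 -
      (ch b lam (a + d + 1) - C ρ * ch b lam (a + d)) * h1 + (d : R[X]) * h3 +
      (2 * (a : R[X]) + d + 1) * C ρ * h4

theorem fam2 (b lam : R) : Fam b lam ((X - C b) ^ 2 - 4 * C lam) 2 (fun a => ch b lam (a + 1))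
    fun a => -lam ^ (a + 1) := by
  have hd : ∀ a : ℕ, ((X - C b) ^ 2 - 4 * C lam) * derivative (ch b lam (a + 1)) =
      ((a : R[X]) + 1) * ct b lam (a + 1) - (X - C b) * ch b lam (a + 1) := by
    intro a
    obtain ⟨h1, h2⟩ := ch_der b lam a
    rw [ct, ch_rec]
    linear_combination (X - C b) * h1 - 2 * C lam * h2
  refine ⟨fun a => (ch_mo b lam a).1, fun a d => ?_⟩
  have h1 := hd a
  have h2 := hd (a + d)
  have h3 := ct_mul_ch b lam (a + 1) d
  have h4 := ch_mul_ct b lam (a + 1) d
  rw [show a + 1 + d = a + d + 1 by ring, show 2 * (a + 1) + d = 2 * a + d + 2 by ring] at h3 h4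
  rw [map_neg, map_pow]
  push_cast at h2 ⊢
  linear_combination ch b lam (a + 1) * h2 - ch b lam (a + d + 1) * h1 +
    ((a : R[X]) + d + 1) * h4 - ((a : R[X]) + 1) * h3

theorem fn_col (b lam : R) {k : ℕ} (hk : 0 < k) (m : ℕ) :
    fn (fun n => paths b b lam lam n (k - 1)) (ch b lam m) = if m = k then 1 else 0 := by
  rw [fn_ch, sub_self, sub_self]
  split_ifs with h
  · rw [show m - (k - 1) = 1 by omega]; rfl
  · rcases Nat.lt_or_ge m k with h1 | h1
    · rw [show m - (k - 1) = 0 by omega]; rfl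
    · rw [show m - (k - 1) = m - k - 1 + 2 by omega, luc_rec]; simp

theorem sum_exp (k c m : ℕ) :
    ∑ i ∈ range m, ∑ j ∈ range k, (4 * k * i + 2 * j + c) = m * k * (2 * m * k + c - k - 1) := by
  have h1 : ∀ x : ℕ, ∑ j ∈ range k, (x + 2 * j + c) + k = k * (x + c + k) := by
    intro x
    induction k with
    | zero => simp
    | succ k ih => rw [sum_range_succ]; nlinarith
  have h2 : ∑ i ∈ range m, ∑ j ∈ range k, (4 * k * i + 2 * j + c) + m * k * (k + 1) =
      m * k * (2 * m * k + c) := by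
    induction m with
    | zero => simp
    | succ m ih => rw [sum_range_succ]; have := h1 (4 * k * m); nlinarith
  rw [Nat.sub_sub, Nat.mul_sub, ← h2, Nat.add_sub_cancel]

variable [Algebra ℚ R]

theorem col_fam {b ρ θ : R} {W : R[X]} {e k : ℕ} {p : ℕ → R[X]} {c y : ℕ → R} (he : e ≤ 2)
    (hk : 0 < k) (h : Fam b (ρ ^ 2) W e p c) (hc0 : e = 0 → c 0 = 0 ∧ θ = 1)
    (hc : ∀ a, 2 * a + e ≠ 0 → c a = θ * ρ ^ (2 * a + e))
    (hy : ∀ f, fn y f = fn (fun n => paths b b (ρ ^ 2) (ρ ^ 2) n (k - 1)) (W * f)) (n : ℕ) :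
    hankelPf 3 y n = if n % k = 0 ∨ 2 * (n % k) + e = k + 1 then
      (-1) ^ (n / k * k.choose 2) * θ ^ (n / k * k) *
        ρ ^ (n / k * k * (2 * (n / k) * k + (4 * (n % k) + e) - k - 1)) *
        (∏ a ∈ range (n % k), (2 * (a : R) + 1)) *
        ∏ i ∈ range (n / k), ∏ j ∈ range k,
          ((4 * k * i + 2 * j + 4 * (n % k) + k + e : ℕ) : R) else 0 := by
  have hS : Shape (fun j l => om y (p j) (p l)) k e fun a => ((2 * a + k + e : ℕ) : R) * c a := by
    refine ⟨fun i j => om_skew y _ _, fun a d => ?_, fun h0 => by rw [(hc0 h0).1, mul_zero], he, hk⟩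
    rw [om_apply, hy, h.key, map_add, fn_nat_mul, fn_nat_mul, fn_C_mul, fn_col b _ hk,
      fn_col b _ hk]
    congr 1
    · split_ifs <;> simp
    · split_ifs with h1
      · rw [h1, mul_one]
      · simp
  have hv : ∀ a, om y (p a) (p (a + k)) = θ * ρ ^ (2 * a + e) * ((2 * a + k + e : ℕ) : R) := by
    intro a
    have := hS.val a k
    rw [if_pos rfl] at this
    rw [this]
    by_cases h0 : 2 * a + e = 0
    · obtain rfl : a = 0 := by omega
      obtain rfl : e = 0 := by omega
      rw [if_pos (by omega), (hc0 rfl).1, (hc0 rfl).2]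
      simp
    · rw [if_neg (by omega), hc a h0]
      ring
  rw [hankel_eq y n p h.mo, sP_eq, ← dP_eq fun j l => om y (p j) (p l)]
  generalize ht : n % k = t
  generalize hm : n / k = m
  have hn : n = t + m * k := by rw [← ht, ← hm, Nat.mod_add_div']
  rw [hn, hS.all, hS.base (ht ▸ Nat.mod_lt n hk)]
  split_ifs
  · have e1 : ∀ i j, om y (p (2 * t + 2 * k * i + j)) (p (2 * t + 2 * k * i + j + k)) =
        θ * ρ ^ (4 * k * i + 2 * j + (4 * t + e)) *
          ((4 * k * i + 2 * j + 4 * t + k + e : ℕ) : R) := by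
      intro i j
      rw [hv]
      congr 2 <;> ring
    simp only [e1, prod_mul_distrib, prod_const, card_range, prod_pow_eq_pow_sum]
    rw [sum_exp k _ m, ← pow_mul, mul_comm k m]
    ring
  · rw [mul_zero]

theorem columns (b ρ : R) (α β k n : ℕ) (hα : α ≤ 1) (hβ : β ≤ 1) (hk : 0 < k) :
    hankelPf 3 ((sh (b - 2 * ρ))^[α] ((sh (b + 2 * ρ))^[β]
      fun m => paths b b (ρ ^ 2) (ρ ^ 2) m (k - 1))) n =
      if n % k = 0 ∨ 2 * (n % k) + (α + β) = k + 1 then
        (-1) ^ (n / k * (k.choose 2 + β * k)) *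
          ρ ^ (n / k * k * (2 * (n / k) * k + 4 * (n % k) + (α + β) - k - 1)) *
          (∏ a ∈ range (n % k), (2 * (a : R) + 1)) *
          ∏ i ∈ range (n / k), ∏ j ∈ range k,
            ((4 * k * i + 2 * j + 4 * (n % k) + k + (α + β) : ℕ) : R) else 0 := by
  have hy : ∀ f, fn ((sh (b - 2 * ρ))^[α] ((sh (b + 2 * ρ))^[β]
      fun m => paths b b (ρ ^ 2) (ρ ^ 2) m (k - 1))) f =
      fn (fun n => paths b b (ρ ^ 2) (ρ ^ 2) n (k - 1))
        ((X - C (b + 2 * ρ)) ^ β * (X - C (b - 2 * ρ)) ^ α * f) := fun f => by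
    rw [fn_sh_iter, fn_sh_iter, mul_assoc]
  have hs : ((-1 : R)) ^ (n / k * (k.choose 2 + β * k)) =
      (-1) ^ (n / k * k.choose 2) * ((-1) ^ β) ^ (n / k * k) := by
    rw [← pow_mul, ← pow_add]
    congr 1
    ring
  rw [hs, add_assoc (2 * (n / k) * k)]
  interval_cases α <;> interval_cases β
  · refine col_fam (by omega) hk (fam0 b _) (fun _ => ⟨rfl, pow_zero _⟩) (fun a ha => ?_)
      (fun f => by rw [hy]; simp) n
    rw [if_neg (by omega), ← pow_mul]
    simp
  · refine col_fam (by omega) hk (fam1 b _ (-ρ) (by ring)) (by omega) (fun a _ => ?_)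
      (fun f => by rw [hy]; simp) n
    rw [pow_succ, pow_mul]
    ring
  · exact col_fam (by omega) hk (fam1 b _ ρ rfl) (by omega) (fun a _ => by simp)
      (fun f => by rw [hy]; simp) n
  · refine col_fam (by omega) hk (fam2 b _) (by omega) (fun a _ => by ring) (fun f => ?_) n
    rw [hy]
    congr 2
    simp only [map_add, map_sub, map_mul, map_pow, show (C 2 : R[X]) = 2 from rfl]
    ring

/-- The printed form when `k` divides `n`: `α = 0` is part (i), `α = 1` is part (ii). -/
theorem printed_first (α k m : ℕ) (hα : α ≤ 1) (hk : 0 < k) :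
    hankelPf 3 ((sh (-1 : ℚ))^[α] fun n => paths 1 1 1 1 n (k - 1)) (m * k) =
      (-1) ^ (m * k.choose 2) * ∏ i ∈ range m, ∏ j ∈ range k,
        (4 * (k : ℚ) * i + 2 * j + k + α) := by
  have := columns (1 : ℚ) 1 α 0 k (m * k) hα (by omega) hk
  rw [Nat.mul_mod_left, Nat.mul_div_cancel _ hk, if_pos (Or.inl rfl)] at this
  norm_num at this
  exact this

/-- The printed form in the second case, with the denominator cleared. -/
theorem printed_second (α s m n : ℕ) (hα : α ≤ 1) (hs : 0 < s) {k : ℕ} (hk : k + α = 2 * s + 1)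
    (hn : n + s = (m + 1) * k) :
    hankelPf 3 ((sh (-1 : ℚ))^[α] fun n => paths 1 1 1 1 n (k - 1)) n *
      ∏ j ∈ range s, (2 * ((j : ℚ) + 1) - k - α) =
      (-1) ^ (m * k.choose 2) * ∏ i ∈ range (m + 1), ∏ j ∈ range k,
        (4 * (k : ℚ) * i + 2 * (j + 1) - k - α) := by
  obtain ⟨t, rfl⟩ : ∃ t, k = s + t := ⟨k - s, by omega⟩
  have h1 : n = t + m * (s + t) := by nlinarith
  have h2 : n % (s + t) = t := by rw [h1, Nat.add_mul_mod_self_right, Nat.mod_eq_of_lt (by omega)]
  have h3 : n / (s + t) = m := by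
    rw [h1, Nat.add_mul_div_right _ _ (by omega), Nat.div_eq_of_lt (by omega), zero_add]
  have h4 : (s : ℚ) = t + α - 1 := by
    have := congrArg (Nat.cast : ℕ → ℚ) hk
    push_cast at this
    linarith
  have := columns (1 : ℚ) 1 α 0 (s + t) n hα (by omega) (by omega)
  rw [h2, h3, if_pos (Or.inr (by omega))] at this
  norm_num at this
  rw [this, prod_range_succ', prod_range_add _ s t]
  have e1 : ∏ i ∈ range m, ∏ j ∈ range (s + t),
      (4 * ((s + t : ℕ) : ℚ) * ((i + 1 : ℕ) : ℚ) + 2 * (j + 1) - ((s + t : ℕ) : ℚ) - α) =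
      ∏ i ∈ range m, ∏ j ∈ range (s + t),
        (4 * ((s : ℚ) + t) * i + 2 * j + 4 * t + (s + t) + α) :=
    prod_congr rfl fun i _ => prod_congr rfl fun j _ => by push_cast; rw [h4]; ring
  have e2 : ∏ j ∈ range t, (4 * ((s + t : ℕ) : ℚ) * ((0 : ℕ) : ℚ) + 2 * (((s + j : ℕ) : ℚ) + 1) -
      ((s + t : ℕ) : ℚ) - α) = ∏ a ∈ range t, (2 * (a : ℚ) + 1) :=
    prod_congr rfl fun i _ => by push_cast; rw [h4]; ring
  rw [e1, e2]
  simp only [Nat.cast_zero, mul_zero, zero_add]
  ring

end Pool.Agent.P.MP_c5a58e_co
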