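import Mathlib

namespace Pool.Agent.P.MP_c5a58e_co

open Finset

/-- The index `2 i` (counted from zero). -/
def ev {n : ℕ} (i : Fin n) : Fin (2 * n) := ⟨2 * i.1, by omega⟩

/-- The index `2 i + 1` (counted from zero). -/
def od {n : ℕ} (i : Fin n) : Fin (2 * n) := ⟨2 * i.1 + 1, by omega⟩

/-- The Pfaffian of a `2n x 2n` matrix, by the sum over all permutations. -/
noncomputable def Pf {R : Type} [CommRing R] [Algebra ℚ R] (n : ℕ)
    (A : Fin (2 * n) → Fin (2 * n) → R) : R :=
  (1 / (2 ^ n * (n.factorial : ℚ))) •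
    ∑ σ : Equiv.Perm (Fin (2 * n)),
      ((Equiv.Perm.sign σ : ℤ) : R) * ∏ i : Fin n, A (σ (ev i)) (σ (od i))

/-- The Pfaffian of the matrix `((j - i) x (i + j - s))` with `1 ≤ i, j ≤ 2n`. -/
noncomputable def hankelPf {R : Type} [CommRing R] [Algebra ℚ R] (s : ℕ) (x : ℕ → R) (n : ℕ) :
    R :=
  Pf n fun i j => (((j.1 + 1 : ℕ) : R) - ((i.1 + 1 : ℕ) : R)) * x ((i.1 + 1) + (j.1 + 1) - s)

/-- Weighted Motzkin paths with `n` steps from height `0` to height `k`: up steps have weight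
`1`, level steps have weight `b0` at height `0` and `b` above, down steps have weight `l` when
they end at height `0` and `lam` otherwise. -/
def paths {R : Type} [CommRing R] (b0 b l lam : R) : ℕ → ℕ → R
  | 0, 0 => 1
  | 0, _ + 1 => 0
  | n + 1, 0 => b0 * paths b0 b l lam n 0 + l * paths b0 b l lam n 1
  | n + 1, k + 1 =>
      paths b0 b l lam n k + b * paths b0 b l lam n (k + 1) + lam * paths b0 b l lam n (k + 2)

/-- Catalan numbers. -/
def catalanQ (k : ℕ) : ℚ := 1 / ((k : ℚ) + 1) * ((2 * k).choose k : ℚ)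

/-- Motzkin numbers. -/
def motzkin (n : ℕ) : ℚ := ∑ k ∈ range (n + 1), (n.choose (2 * k) : ℚ) * catalanQ k

/-- Central Delannoy numbers. -/
def delannoy (n : ℕ) : ℚ := ∑ k ∈ range (n + 1), (n.choose k : ℚ) * ((n + k).choose k : ℚ)

/-- Large Schroeder numbers. -/
def schroeder (n : ℕ) : ℚ := ∑ k ∈ range (n + 1), ((n + k).choose (2 * k) : ℚ) * catalanQ k

/-- Narayana polynomials; the term `k = 0` of the defining sum vanishes and is left out. -/
noncomputable def narayana : ℕ → Polynomial ℚ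
  | 0 => 1
  | n + 1 => ∑ k ∈ range (n + 1),
      Polynomial.C (1 / ((n : ℚ) + 1) * ((n + 1).choose (k + 1) : ℚ) * ((n + 1).choose k : ℚ)) *
        Polynomial.X ^ (k + 1)

end Pool.Agent.P.MP_c5a58e_co
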