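import Pool.Agent.P.MP_c5a58e_co.Rec
import Pool.Agent.P.MP_c5a58e_co.Cheb

namespace Pool.Agent.P.MP_c5a58e_co

open Finset Polynomial

variable {R : Type} [CommRing R]

/-- The linear functional with given moments. -/
noncomputable def fn (x : ℕ → R) : R[X] →ₗ[R] R := (basisMonomials R).constr R x

theorem fn_pow (x : ℕ → R) (n : ℕ) : fn x (X ^ n) = x n := by
  have := (basisMonomials R).constr_basis R x n
  rw [coe_basisMonomials] at this
  rw [← monomial_one_right_eq_X_pow]
  exact this

theorem fn_C_mul (x : ℕ → R) (a : R) (f : R[X]) : fn x (C a * f) = a * fn x f := by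
  rw [← smul_eq_C_mul, map_smul, smul_eq_mul]

theorem fn_nat_mul (x : ℕ → R) (a : ℕ) (f : R[X]) : fn x ((a : R[X]) * f) = a * fn x f := by
  rw [← C_eq_natCast, fn_C_mul]

theorem lin_ext {φ ψ : R[X] →ₗ[R] R} (h : ∀ n, φ (X ^ n) = ψ (X ^ n)) (f : R[X]) : φ f = ψ f := by
  induction f using Polynomial.induction_on' with
  | add p q hp hq => rw [map_add, map_add, hp, hq]
  | monomial n a => rw [← C_mul_X_pow_eq_monomial, ← smul_eq_C_mul, map_smul, map_smul, h]

theorem fn_X_mul (x : ℕ → R) (f : R[X]) : fn x (X * f) = fn (fun n => x (n + 1)) f :=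
  lin_ext (φ := fn x ∘ₗ LinearMap.mulLeft R X) (fun n => by
    rw [LinearMap.comp_apply, LinearMap.mulLeft_apply, ← pow_succ', fn_pow, fn_pow]) f

theorem fn_lin (x y z : ℕ → R) (a b c : R) (f : R[X]) :
    fn (fun n => a * x n + b * y n + c * z n) f = a * fn x f + b * fn y f + c * fn z f :=
  lin_ext (ψ := a • fn x + b • fn y + c • fn z) (fun n => by simp [fn_pow]) f

/-- The skew form attached to a sequence of moments. -/
noncomputable def om (x : ℕ → R) : R[X] →ₗ[R] R[X] →ₗ[R] R :=
  LinearMap.mk₂ R (fun f g => fn x (f * derivative g - derivative f * g))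
    (fun f f' g => by rw [← map_add]; congr 1; simp only [derivative_add]; ring)
    (fun a f g => by
      rw [← map_smul]; congr 1; simp only [smul_eq_C_mul, derivative_C_mul]; ring)
    (fun f g g' => by rw [← map_add]; congr 1; simp only [derivative_add]; ring)
    (fun a f g => by
      rw [← map_smul]; congr 1; simp only [smul_eq_C_mul, derivative_C_mul]; ring)

theorem om_apply (x : ℕ → R) (f g : R[X]) :
    om x f g = fn x (f * derivative g - derivative f * g) := rfl

theorem om_skew (x : ℕ → R) (f g : R[X]) : om x f g = -om x g f := by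
  rw [om_apply, om_apply, ← map_neg]
  congr 1
  ring

theorem om_pow (x : ℕ → R) (i j : ℕ) :
    om x (X ^ i) (X ^ j) = ((j : R) - i) * x (i + j - 1) := by
  have h : ∀ i j : ℕ, fn x (X ^ i * derivative (X ^ j)) = j * x (i + j - 1) := by
    intro i j
    rcases j with _ | j
    · simp
    · rw [derivative_X_pow_succ, mul_left_comm, ← pow_add, fn_C_mul, fn_pow]
      push_cast
      rfl
  rw [om_apply, map_sub, h, mul_comm (derivative _), h, add_comm j]
  ring

/-- The Lucas sequence. -/
def luc (c v : R) : ℕ → R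
  | 0 => 0
  | 1 => 1
  | n + 2 => c * luc c v (n + 1) - v * luc c v n

theorem luc_rec (c v : R) (n : ℕ) : luc c v (n + 2) = c * luc c v (n + 1) - v * luc c v n := rfl

theorem fn_ch (b0 b l lam : R) (m : ℕ) : ∀ k,
    fn (fun n => paths b0 b l lam n k) (ch b lam m) = luc (b0 - b) (lam - l) (m - k) := by
  induction m using Nat.twoStepInduction with
  | zero => intro k; simp [ch, luc]
  | one =>
    intro k
    rw [ch, ← pow_zero (X : R[X]), fn_pow]
    rcases k with _ | k
    · rfl
    · rw [show 1 - (k + 1) = 0 by omega]; rfl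
  | more m h0 h1 =>
    intro k
    rw [ch_rec, sub_mul, map_sub, map_sub, fn_C_mul, fn_C_mul, fn_X_mul, h0, h1]
    rcases k with _ | k
    · have := fn_lin (fun n => paths b0 b l lam n 0) (fun n => paths b0 b l lam n 1)
        (fun n => paths b0 b l lam n 1) b0 l 0 (ch b lam (m + 1))
      simp only [zero_mul, add_zero] at this
      simp only [paths]
      rw [this, h1, h1]
      simp only [Nat.sub_zero, Nat.add_sub_cancel, luc_rec]
      ring
    · have := fn_lin (fun n => paths b0 b l lam n k) (fun n => paths b0 b l lam n (k + 1))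
        (fun n => paths b0 b l lam n (k + 2)) 1 b lam (ch b lam (m + 1))
      simp only [one_mul] at this
      simp only [paths]
      rw [this, h1, h1, h1, show m + 1 - (k + 2) = m - (k + 1) by omega,
        show m + 2 - (k + 1) = m + 1 - k by omega]
      ring

section

variable {x : ℕ → R} {b lam c v : R}

theorem om_ct (hx : ∀ m, fn x (ch b lam m) = luc c v m) (j d k s : ℕ) (hk : k = j + d)
    (hs : s = 2 * j + d) :
    om x (ct b lam j) (ct b lam k) = d * luc c v s + s * lam ^ j * luc c v d := by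
  subst hk hs
  rw [om_apply, ct_der, ct_der, mul_left_comm, ct_mul_ch, mul_assoc, ch_mul_ct, map_sub,
    fn_nat_mul, fn_nat_mul, map_add, map_sub, ← C_pow, fn_C_mul, hx, hx]
  push_cast
  ring

theorem om_one (hx : ∀ m, fn x (ch b lam m) = luc c v m) (k : ℕ) :
    om x 1 (ct b lam k) = k * luc c v k := by
  rw [om_apply, ct_der]
  simp [fn_nat_mul, hx]

/-- The basis in which the form is tridiagonal plus semiseparable. -/
noncomputable def bp (b lam c v : R) : ℕ → R[X]
  | 0 => 1
  | 1 => ct b lam 1 - c • 1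
  | j + 2 => ct b lam (j + 2) - c • ct b lam (j + 1) + v • ct b lam j

theorem bp_mo (b lam c v : R) (j : ℕ) : Mo (bp b lam c v j) j := by
  rcases j with _ | _ | j
  · exact mo_one
  · have := (ct_mo b lam 0).add (mo_one.lo Nat.one_pos) (-c)
    convert this using 1
    simp [bp, smul_eq_C_mul, sub_eq_add_neg]
  · have := ((ct_mo b lam (j + 1)).add (ct_lo b lam (j + 1)) (-c)).add
      (fun k hk => ct_lo b lam j k (by omega)) v
    convert this using 1
    simp [bp, smul_eq_C_mul, sub_eq_add_neg]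

theorem g01 (hx : ∀ m, fn x (ch b lam m) = luc c v m) :
    om x (bp b lam c v 0) (bp b lam c v 1) = 1 := by
  have h0 : om x 1 1 = 0 := by simp [om_apply]
  simp [bp, om_one hx, h0, luc]

theorem g0k (hx : ∀ m, fn x (ch b lam m) = luc c v m) (e : ℕ) :
    om x (bp b lam c v 0) (bp b lam c v (e + 2)) = luc c v (e + 2) - v * luc c v e := by
  simp only [bp, map_add, map_sub, map_smul, smul_eq_mul, om_one hx, luc_rec]
  push_cast
  ring

theorem g12 (hx : ∀ m, fn x (ch b lam m) = luc c v m) :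
    om x (bp b lam c v 1) (bp b lam c v 2) = 3 * (lam - v) := by
  simp only [bp, map_add, map_sub, map_smul, smul_eq_mul, LinearMap.sub_apply,
    LinearMap.smul_apply, om_one hx, zero_add]
  rw [om_skew x (ct b lam 1) (ct b lam 0), om_ct hx 1 1 2 3 rfl rfl, om_ct hx 1 0 1 2 rfl rfl,
    om_ct hx 0 1 1 1 rfl rfl]
  simp only [luc]
  push_cast
  ring

theorem g1k (hx : ∀ m, fn x (ch b lam m) = luc c v m) (e : ℕ) :
    om x (bp b lam c v 1) (bp b lam c v (e + 3)) =
      (lam - v) * (luc c v (e + 2) - v * luc c v e) := by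
  simp only [bp, map_add, map_sub, map_smul, smul_eq_mul, LinearMap.sub_apply,
    LinearMap.smul_apply, om_one hx]
  rw [om_ct hx 1 (e + 2) (e + 1 + 2) (e + 4) (by ring) (by ring),
    om_ct hx 1 (e + 1) (e + 1 + 1) (e + 3) (by ring) (by ring),
    om_ct hx 1 e (e + 1) (e + 2) (by ring) (by ring)]
  simp only [luc_rec]
  push_cast
  ring

theorem gj1 (hx : ∀ m, fn x (ch b lam m) = luc c v m) (i : ℕ) :
    om x (bp b lam c v (i + 2)) (bp b lam c v (i + 3)) =
      (lam - v) * lam ^ i * (2 * lam - c ^ 2 + 2 * v + (2 * i + 3) * lam) := by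
  simp only [bp, map_add, map_sub, map_smul, smul_eq_mul, LinearMap.sub_apply,
    LinearMap.add_apply, LinearMap.smul_apply]
  rw [om_skew x (ct b lam (i + 2)) (ct b lam (i + 1)),
    om_ct hx (i + 2) 1 (i + 1 + 2) (2 * i + 1 + 4) (by ring) (by ring),
    om_ct hx (i + 1) 2 (i + 1 + 2) (2 * i + 1 + 3) (by ring) (by ring),
    om_ct hx i 3 (i + 1 + 2) (2 * i + 1 + 2) (by ring) (by ring),
    om_ct hx (i + 2) 0 (i + 1 + 1) (2 * i + 1 + 3) (by ring) (by ring),
    om_ct hx (i + 1) 1 (i + 1 + 1) (2 * i + 1 + 2) (by ring) (by ring),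
    om_ct hx i 2 (i + 1 + 1) (2 * i + 1 + 1) (by ring) (by ring),
    om_ct hx (i + 1) 0 (i + 1) (2 * i + 1 + 1) (by ring) (by ring),
    om_ct hx i 1 (i + 1) (2 * i + 1) (by ring) (by ring)]
  have r2 := luc_rec c v (2 * i + 1)
  have r3 := luc_rec c v (2 * i + 1 + 1)
  have r4 := luc_rec c v (2 * i + 1 + 2)
  rw [show 2 * i + 1 + 1 + 2 = 2 * i + 1 + 3 by ring] at r3
  rw [show 2 * i + 1 + 2 + 2 = 2 * i + 1 + 4 by ring,
    show 2 * i + 1 + 2 + 1 = 2 * i + 1 + 3 by ring] at r4
  rw [r4, r3, r2, show luc c v 3 = c * c - v by simp [luc], show luc c v 2 = c by simp [luc],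
    show luc c v 1 = 1 from rfl, show luc c v 0 = 0 from rfl]
  push_cast
  ring

theorem gjk (hx : ∀ m, fn x (ch b lam m) = luc c v m) (i e : ℕ) :
    om x (bp b lam c v (i + 2)) (bp b lam c v (i + e + 4)) = (lam - v) * lam ^ i *
      (lam * (luc c v (e + 2) - v * luc c v e) - (luc c v (e + 4) - v * luc c v (e + 2))) := by
  simp only [bp, map_add, map_sub, map_smul, smul_eq_mul, LinearMap.sub_apply,
    LinearMap.add_apply, LinearMap.smul_apply]
  rw [om_ct hx (i + 2) (e + 2) (i + e + 2 + 2) (2 * i + e + 2 + 4) (by ring) (by ring),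
    om_ct hx (i + 1) (e + 3) (i + e + 2 + 2) (2 * i + e + 2 + 3) (by ring) (by ring),
    om_ct hx i (e + 4) (i + e + 2 + 2) (2 * i + e + 2 + 2) (by ring) (by ring),
    om_ct hx (i + 2) (e + 1) (i + e + 2 + 1) (2 * i + e + 2 + 3) (by ring) (by ring),
    om_ct hx (i + 1) (e + 2) (i + e + 2 + 1) (2 * i + e + 2 + 2) (by ring) (by ring),
    om_ct hx i (e + 3) (i + e + 2 + 1) (2 * i + e + 2 + 1) (by ring) (by ring),
    om_ct hx (i + 2) e (i + e + 2) (2 * i + e + 2 + 2) (by ring) (by ring),
    om_ct hx (i + 1) (e + 1) (i + e + 2) (2 * i + e + 2 + 1) (by ring) (by ring),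
    om_ct hx i (e + 2) (i + e + 2) (2 * i + e + 2) (by ring) (by ring)]
  generalize 2 * i + e + 2 = N
  have r2 := luc_rec c v N
  have r3 : luc c v (N + 3) = c * luc c v (N + 2) - v * luc c v (N + 1) := luc_rec c v (N + 1)
  have r4 : luc c v (N + 4) = c * luc c v (N + 3) - v * luc c v (N + 2) := luc_rec c v (N + 2)
  have s2 := luc_rec c v e
  have s3 : luc c v (e + 3) = c * luc c v (e + 2) - v * luc c v (e + 1) := luc_rec c v (e + 1)
  have s4 : luc c v (e + 4) = c * luc c v (e + 3) - v * luc c v (e + 2) := luc_rec c v (e + 2)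
  rw [r4, r3, r2, s4, s3, s2]
  push_cast
  ring

end

variable [Algebra ℚ R]

theorem hankel_eq (x : ℕ → R) (n : ℕ) (p : ℕ → R[X]) (hp : ∀ j, Mo (p j) j) :
    hankelPf 3 x n = sP (fun j k => om x (p j) (p k)) n := by
  rw [sP_eq, Pf_monic (om x) n p fun j => (hp j).deg]
  unfold hankelPf
  congr 1
  funext i j
  rw [om_pow, show i.1 + 1 + (j.1 + 1) - 3 = i.1 + j.1 - 1 by omega]
  push_cast
  ring

/-- The tridiagonal part. -/
def tau (lam u : R) : ℕ → R
  | 0 => -1
  | 1 => u * lam
  | j + 2 => (2 * j + 3) * u * lam ^ (j + 2)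

theorem hankel_sys {b0 b lam u w δ : R} {Q d E ρ : ℕ → R} (hS : Sys w δ Q d E ρ) (hw : u = 1 - w)
    (hc : (b0 - b) ^ 2 = lam * (δ + 4 * w)) (m : ℕ) :
    hankelPf 3 (fun n => paths b0 b (u * lam) lam n 0) (m + 1) =
      lam ^ (m * (m + 1)) * u ^ m * Q m := by
  have hx : ∀ m, fn (fun n => paths b0 b (u * lam) lam n 0) (ch b lam m) =
      luc (b0 - b) (w * lam) m := fun m => by
    rw [fn_ch, Nat.sub_zero]
    congr 1
    rw [hw]
    ring
  generalize b0 - b = c at hc hx
  generalize (fun n => paths b0 b (u * lam) lam n 0) = x at hx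
  rw [hankel_eq x _ _ (bp_mo b lam c (w * lam))]
  have l2 : luc c (w * lam) 2 = c := by simp [luc]
  have l3 : luc c (w * lam) 3 = c * c - w * lam := by simp [luc]
  have l4 : luc c (w * lam) 4 = c * (c * c - w * lam) - w * lam * c := by simp [luc]
  have l1 : luc c (w * lam) 1 = 1 := rfl
  have l0 : luc c (w * lam) 0 = 0 := rfl
  refine (solve (τ := tau lam u)
    (y := fun k j => om x (bp b lam c (w * lam) j) (bp b lam c (w * lam) k) -
      if k = j + 1 then tau lam u j else 0) hS hw hc (fun i j => om_skew x _ _)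
    (fun j k _ => by ring) ?_ rfl rfl (fun _ => rfl) ?_ ?_ ?_ ?_ ?_ ?_ m).1
  · intro j k hjk
    obtain ⟨e, rfl⟩ : ∃ e, k = j + 1 + e := ⟨k - (j + 1), by omega⟩
    rw [if_neg (by omega), if_neg (by omega)]
    rcases e with _ | e
    · rw [if_pos rfl]
      rcases j with _ | _ | j
      · rw [g0k hx 1, g0k hx 0, g01 hx, l3, l2, l1, l0, tau]; ring
      · rw [g1k hx 1, g1k hx 0, g12 hx, l3, l2, l1, l0, tau, hw]; ring
      · have h1 := gjk hx j 1
        have h2 := gjk hx j 0
        have h3 := gj1 hx j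
        have l5 : luc c (w * lam) (1 + 4) = c * luc c (w * lam) 4 - w * lam * luc c (w * lam) 3 :=
          rfl
        rw [show j + 1 + 4 = j + 1 + 1 + 1 + 0 + 2 by ring] at h1
        rw [show j + 0 + 4 = j + 1 + 1 + 1 + 0 + 1 by ring] at h2
        rw [h1, h2, h3, l5, l4, l3, l2, l1, l0, tau, hw]
        ring
    · rw [if_neg (by omega)]
      rcases j with _ | _ | j
      · rw [show 0 + 1 + (e + 1) + 2 = e + 2 + 2 by ring,
          show 0 + 1 + (e + 1) + 1 = e + 1 + 2 by ring, show 0 + 1 + (e + 1) = e + 2 by ring,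
          g0k hx, g0k hx, g0k hx]
        simp only [luc_rec]
        ring
      · rw [show 0 + 1 + 1 + (e + 1) + 2 = e + 2 + 3 by ring,
          show 0 + 1 + 1 + (e + 1) + 1 = e + 1 + 3 by ring,
          show 0 + 1 + 1 + (e + 1) = e + 3 by ring, zero_add, g1k hx, g1k hx, g1k hx]
        simp only [luc_rec]
        ring
      · rw [show j + 1 + 1 + 1 + (e + 1) + 2 = j + (e + 2) + 4 by ring,
          show j + 1 + 1 + 1 + (e + 1) + 1 = j + (e + 1) + 4 by ring,
          show j + 1 + 1 + 1 + (e + 1) = j + e + 4 by ring, gjk hx, gjk hx, gjk hx]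
        simp only [luc_rec]
        ring
  · rw [g01 hx, if_pos rfl, tau]; ring
  · rw [g0k hx 0, if_neg (by omega), l2, l0]; ring
  · rw [g12 hx, if_pos rfl, tau, hw]; ring
  · rw [g1k hx 0, if_neg (by omega), l2, l0, hw]; ring
  · intro j
    rw [gj1 hx, if_pos rfl, tau, hw]
    linear_combination (-(1 - w) * lam ^ (j + 1)) * hc
  · intro j
    have h2 := gjk hx j 0
    rw [show j + 0 + 4 = j + 4 by ring] at h2
    rw [h2, if_neg (by omega), l4, l2, l0, hw]
    linear_combination (-(1 - w) * lam ^ (j + 1) * c) * hc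

end Pool.Agent.P.MP_c5a58e_co
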