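import Pool.Agent.P.MP_c5a58e_co.Defs

namespace Pool.Agent.P.MP_c5a58e_co

open Finset Equiv

variable {R : Type} [CommRing R]

/-- One term of the permutation sum. -/
def tm {n : ℕ} (A : Fin (2 * n) → Fin (2 * n) → R) (σ : Perm (Fin (2 * n))) : R :=
  ((Perm.sign σ : ℤ) : R) * ∏ i : Fin n, A (σ (ev i)) (σ (od i))

theorem ev_ne_od {n : ℕ} (i j : Fin n) : ev i ≠ od j := by
  intro h
  have := congrArg Fin.val h
  simp only [ev, od] at this
  omega

theorem ev_inj {n : ℕ} {i j : Fin n} (h : ev i = ev j) : i = j := by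
  have := congrArg Fin.val h
  simp only [ev] at this
  exact Fin.ext (by omega)

theorem od_inj {n : ℕ} {i j : Fin n} (h : od i = od j) : i = j := by
  have := congrArg Fin.val h
  simp only [od] at this
  exact Fin.ext (by omega)

theorem tm_pair {n : ℕ} (A : Fin (2 * n) → Fin (2 * n) → R) (σ : Perm (Fin (2 * n)))
    (a c : Fin n) : tm A (σ * (swap (ev a) (ev c) * swap (od a) (od c))) = tm A σ := by
  have h1 : ∀ i : Fin n, (swap (ev a) (ev c) * swap (od a) (od c)) (ev i) = ev (swap a c i) := by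
    intro i
    rw [Perm.mul_apply, swap_apply_of_ne_of_ne (ev_ne_od i a) (ev_ne_od i c)]
    by_cases h : i = a
    · subst h; simp
    · by_cases h' : i = c
      · subst h'; simp
      · rw [swap_apply_of_ne_of_ne h h',
          swap_apply_of_ne_of_ne (fun e => h (ev_inj e)) (fun e => h' (ev_inj e))]
  have h2 : ∀ i : Fin n, (swap (ev a) (ev c) * swap (od a) (od c)) (od i) = od (swap a c i) := by
    intro i
    have h3 : swap (od a) (od c) (od i) = od (swap a c i) := by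
      by_cases h : i = a
      · subst h; simp
      · by_cases h' : i = c
        · subst h'; simp
        · rw [swap_apply_of_ne_of_ne h h',
            swap_apply_of_ne_of_ne (fun e => h (od_inj e)) (fun e => h' (od_inj e))]
    rw [Perm.mul_apply, h3,
      swap_apply_of_ne_of_ne (ev_ne_od a _).symm (ev_ne_od c _).symm]
  have hs : Perm.sign (swap (ev a) (ev c) * swap (od a) (od c)) = 1 := by
    by_cases h : a = c
    · subst h; simp
    · rw [Perm.sign_mul, Perm.sign_swap (fun e => h (ev_inj e)),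
        Perm.sign_swap (fun e => h (od_inj e))]
      simp
  unfold tm
  rw [Perm.sign_mul, hs, mul_one]
  congr 1
  simp only [Perm.mul_apply σ, h1, h2]
  exact Equiv.prod_comp (swap a c) (fun i => A (σ (ev i)) (σ (od i)))

theorem tm_flip {n : ℕ} (A : Fin (2 * n) → Fin (2 * n) → R) (hA : ∀ i j, A i j = -A j i)
    (σ : Perm (Fin (2 * n))) (a : Fin n) : tm A (σ * swap (ev a) (od a)) = tm A σ := by
  unfold tm
  rw [Perm.sign_mul, Perm.sign_swap (ev_ne_od a a), ← mul_prod_erase univ _ (mem_univ a),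
    ← mul_prod_erase univ (fun i => A (σ (ev i)) (σ (od i))) (mem_univ a)]
  have h : ∏ i ∈ univ.erase a,
      A ((σ * swap (ev a) (od a)) (ev i)) ((σ * swap (ev a) (od a)) (od i))
      = ∏ i ∈ univ.erase a, A (σ (ev i)) (σ (od i)) := by
    refine prod_congr rfl fun i hi => ?_
    have hi' : i ≠ a := (mem_erase.1 hi).1
    rw [Perm.mul_apply, Perm.mul_apply,
      swap_apply_of_ne_of_ne (fun e => hi' (ev_inj e)) (ev_ne_od i a),
      swap_apply_of_ne_of_ne (ev_ne_od a i).symm (fun e => hi' (od_inj e))]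
  rw [h, Perm.mul_apply, Perm.mul_apply, swap_apply_left, swap_apply_right, hA (σ (od a))]
  push_cast
  ring

theorem sum_tm_fix {n : ℕ} (A : Fin (2 * (n + 1)) → Fin (2 * (n + 1)) → R)
    (hA : ∀ i j, A i j = -A j i) (p : Fin (2 * (n + 1))) :
    ∑ σ ∈ univ.filter (fun σ : Perm (Fin (2 * (n + 1))) => σ p = ev 0), tm A σ =
      ∑ σ ∈ univ.filter (fun σ : Perm (Fin (2 * (n + 1))) => σ (ev 0) = ev 0), tm A σ := by
  obtain ⟨h, h0, ht⟩ : ∃ h : Perm (Fin (2 * (n + 1))),
      h (ev 0) = p ∧ ∀ σ, tm A (σ * h) = tm A σ := by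
    have hp := p.2
    rcases Nat.even_or_odd' p.1 with ⟨i, hi | hi⟩
    · refine ⟨swap (ev 0) (ev ⟨i, by omega⟩) * swap (od 0) (od ⟨i, by omega⟩), ?_,
        fun σ => tm_pair A σ _ _⟩
      rw [Perm.mul_apply, swap_apply_of_ne_of_ne (ev_ne_od _ _) (ev_ne_od _ _), swap_apply_left]
      exact Fin.ext hi.symm
    · refine ⟨swap (ev 0) (ev ⟨i, by omega⟩) * swap (od 0) (od ⟨i, by omega⟩) *
        swap (ev 0) (od 0), ?_, fun σ => ?_⟩
      · rw [Perm.mul_apply, swap_apply_left, Perm.mul_apply, swap_apply_left,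
          swap_apply_of_ne_of_ne (ev_ne_od _ _).symm (ev_ne_od _ _).symm]
        exact Fin.ext hi.symm
      · rw [← mul_assoc, tm_flip A hA, tm_pair]
  refine sum_bij' (fun σ _ => σ * h) (fun σ _ => σ * h⁻¹) ?_ ?_ ?_ ?_ ?_
  · intro σ hσ
    simp only [mem_filter, mem_univ, true_and] at hσ ⊢
    rw [Perm.mul_apply, h0, hσ]
  · intro σ hσ
    simp only [mem_filter, mem_univ, true_and] at hσ ⊢
    rw [Perm.mul_apply, ← h0]
    simpa using hσ
  · intro σ _; simp
  · intro σ _; simp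
  · intro σ _; exact (ht σ).symm

theorem sum_tm_succ {n : ℕ} (A : Fin (2 * (n + 1)) → Fin (2 * (n + 1)) → R)
    (hA : ∀ i j, A i j = -A j i) :
    ∑ σ, tm A σ = ((2 * (n + 1) : ℕ) : R) *
      ∑ σ ∈ univ.filter (fun σ : Perm (Fin (2 * (n + 1))) => σ (ev 0) = ev 0), tm A σ := by
  rw [← sum_fiberwise univ (fun σ : Perm (Fin (2 * (n + 1))) => σ⁻¹ (ev 0)) (tm A)]
  have h : ∀ p : Fin (2 * (n + 1)),
      ∑ σ ∈ univ.filter (fun σ : Perm (Fin (2 * (n + 1))) => σ⁻¹ (ev 0) = p), tm A σ =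
      ∑ σ ∈ univ.filter (fun σ : Perm (Fin (2 * (n + 1))) => σ (ev 0) = ev 0), tm A σ := by
    intro p
    rw [← sum_tm_fix A hA p]
    congr 1
    ext σ
    simp only [mem_filter, mem_univ, true_and]
    rw [Perm.inv_eq_iff_eq]
    exact eq_comm
  simp only [h, sum_const, card_univ, Fintype.card_fin, nsmul_eq_mul]

theorem sum_fix_exp {n : ℕ} (A : Fin (2 * n + 2) → Fin (2 * n + 2) → R) :
    ∑ σ ∈ univ.filter (fun σ : Perm (Fin (2 * (n + 1))) => σ (ev 0) = ev 0),
      tm (n := n + 1) A σ =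
      ∑ j : Fin (2 * n + 1), (if j = 0 then 1 else -1) * A 0 j.succ *
        ∑ e : Perm (Fin (2 * n)),
          tm (fun a c => A (swap 0 j a.succ).succ (swap 0 j c.succ).succ) e := by
  have e0 : (ev (0 : Fin (n + 1)) : Fin (2 * n + 2)) = 0 := rfl
  have e1 : (od (0 : Fin (n + 1)) : Fin (2 * n + 2)) = (0 : Fin (2 * n + 1)).succ := rfl
  have e2 : ∀ i : Fin n, (ev i.succ : Fin (2 * n + 2)) = (ev i).succ.succ := fun i => rfl
  have e3 : ∀ i : Fin n, (od i.succ : Fin (2 * n + 2)) = (od i).succ.succ := fun i => rfl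
  rw [sum_filter]
  change ∑ σ : Perm (Fin (2 * n + 1 + 1)),
    (if σ (ev (0 : Fin (n + 1))) = ev (0 : Fin (n + 1)) then tm (n := n + 1) A σ else 0) = _
  rw [univ_perm_fin_succ, sum_map, ← univ_product_univ, sum_product, Fin.sum_univ_succ]
  have hz : ∑ p : Fin (2 * n + 1), ∑ e : Perm (Fin (2 * n + 1)),
      (if (Perm.decomposeFin.symm.toEmbedding (p.succ, e)) (ev (0 : Fin (n + 1))) =
        ev (0 : Fin (n + 1)) then
        tm (n := n + 1) A (Perm.decomposeFin.symm.toEmbedding (p.succ, e)) else 0) = 0 := by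
    refine sum_eq_zero fun p _ => sum_eq_zero fun e _ => if_neg ?_
    rw [e0]
    simp
  rw [hz, add_zero, univ_perm_fin_succ, sum_map, ← univ_product_univ, sum_product]
  refine sum_congr rfl fun j _ => ?_
  rw [mul_sum]
  refine sum_congr rfl fun e _ => ?_
  rw [if_pos (by rw [e0]; simp)]
  unfold tm
  rw [Fin.prod_univ_succ, e0, e1]
  simp only [e2, e3, Equiv.toEmbedding_apply, Perm.decomposeFin_symm_apply_zero,
    Perm.decomposeFin_symm_apply_succ, Perm.decomposeFin.symm_sign, swap_self, Equiv.refl_apply,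
    if_true, one_mul]
  split_ifs <;> simp <;> ring

variable [Algebra ℚ R]

theorem Pf_eq {n : ℕ} (A : Fin (2 * n) → Fin (2 * n) → R) :
    Pf n A = (1 / (2 ^ n * (n.factorial : ℚ))) • ∑ σ, tm A σ := rfl

theorem Pf_succ {n : ℕ} (A : Fin (2 * n + 2) → Fin (2 * n + 2) → R)
    (hA : ∀ i j, A i j = -A j i) :
    Pf (n + 1) A = ∑ j : Fin (2 * n + 1), (if j = 0 then 1 else -1) * A 0 j.succ *
      Pf n (fun a c => A (swap 0 j a.succ).succ (swap 0 j c.succ).succ) := by
  rw [Pf_eq, sum_tm_succ (n := n) A hA, sum_fix_exp]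
  simp only [Pf_eq, mul_smul_comm, ← smul_sum]
  rw [← nsmul_eq_mul, ← Nat.cast_smul_eq_nsmul ℚ, smul_smul]
  congr 1
  rw [Nat.factorial_succ]
  push_cast
  field_simp
  ring

theorem Pf_zero (A : Fin (2 * 0) → Fin (2 * 0) → R) : Pf 0 A = 1 := by
  simp [Pf]

theorem Pf_perm {n : ℕ} (A : Fin (2 * n) → Fin (2 * n) → R) (τ : Perm (Fin (2 * n))) :
    Pf n (fun i j => A (τ i) (τ j)) = ((Perm.sign τ : ℤ) : R) * Pf n A := by
  rw [Pf_eq, Pf_eq, mul_smul_comm, mul_sum]
  congr 1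
  rw [← Equiv.sum_comp (Equiv.mulLeft τ) (fun σ => ((Perm.sign τ : ℤ) : R) * tm A σ)]
  refine sum_congr rfl fun σ _ => ?_
  unfold tm
  simp only [Equiv.coe_mulLeft, Perm.sign_mul, Perm.mul_apply, Units.val_mul, Int.cast_mul]
  rcases Int.units_eq_one_or (Perm.sign τ) with h | h <;> simp [h]

theorem Pf_rev {n : ℕ} (A : Fin (2 * n) → Fin (2 * n) → R) :
    Pf n (fun i j => A j.rev i.rev) = Pf n A := by
  rw [Pf_eq, Pf_eq]
  congr 1
  rw [← Equiv.sum_comp (MulAut.conj (Fin.revPerm : Perm (Fin (2 * n)))).toEquiv (tm A)]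
  refine sum_congr rfl fun σ _ => ?_
  unfold tm
  have hs : Perm.sign ((MulAut.conj (Fin.revPerm : Perm (Fin (2 * n)))).toEquiv σ) =
      Perm.sign σ := by
    simp only [MulEquiv.toEquiv_eq_coe, EquivLike.coe_coe, MulAut.conj_apply, Perm.sign_mul,
      Perm.sign_inv]
    rw [mul_right_comm, Int.units_mul_self, one_mul]
  rw [hs]
  congr 1
  rw [← Equiv.prod_comp (Fin.revPerm : Perm (Fin n))]
  refine prod_congr rfl fun i _ => ?_
  have h1 : (ev i).rev = od i.rev := by
    apply Fin.ext; have := i.2; simp only [ev, od, Fin.val_rev]; omega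
  have h2 : (od i).rev = ev i.rev := by
    apply Fin.ext; have := i.2; simp only [ev, od, Fin.val_rev]; omega
  simp [h1, h2]

theorem Pf_map {S : Type} [CommRing S] [Algebra ℚ S] (f : R →+* S) {n : ℕ}
    (A : Fin (2 * n) → Fin (2 * n) → R) : f (Pf n A) = Pf n fun i j => f (A i j) := by
  unfold Pf
  rw [map_rat_smul]
  simp

end Pool.Agent.P.MP_c5a58e_co
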