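import Pool.Agent.P.MP_c5a58e_co.PfA

namespace Pool.Agent.P.MP_c5a58e_co

open Finset Equiv

variable {R : Type} [CommRing R] [Algebra ℚ R] {ι : Type}

/-- A new first entry of a sequence. -/
def cs (x : ι) (v : ℕ → ι) : ℕ → ι
  | 0 => x
  | k + 1 => v k

@[simp] theorem cs_zero (x : ι) (v : ℕ → ι) : cs x v 0 = x := rfl
@[simp] theorem cs_succ (x : ι) (v : ℕ → ι) (k : ℕ) : cs x v (k + 1) = v k := rfl

/-- The Pfaffian of the first `2n` labels. -/
noncomputable def pN (A : ι → ι → R) (n : ℕ) (v : ℕ → ι) : R :=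
  Pf n fun i j => A (v i.1) (v j.1)

/-- The signed minors of a sequence of odd length. -/
noncomputable def mn (A : ι → ι → R) (n : ℕ) (u : ℕ → ι) (j : Fin (2 * n + 1)) : R :=
  (if j = 0 then 1 else -1) * Pf n fun a c => A (u (swap 0 j a.succ).1) (u (swap 0 j c.succ).1)

/-- Expansion with a given first row. -/
noncomputable def ex (A : ι → ι → R) (n : ℕ) (u : ℕ → ι) (f : ℕ → R) : R :=
  ∑ j : Fin (2 * n + 1), f j.1 * mn A n u j

theorem pN_cs {A : ι → ι → R} (hA : ∀ x y, A x y = -A y x) (n : ℕ) (x : ι) (u : ℕ → ι) :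
    pN A (n + 1) (cs x u) = ex A n u fun i => A x (u i) := by
  unfold pN ex mn
  refine (Pf_succ (n := n) (fun i j => A (cs x u i.1) (cs x u j.1)) (fun i j => hA _ _)).trans
    (sum_congr rfl fun j _ => ?_)
  simp only [Fin.val_succ, cs_succ, Fin.val_zero, cs_zero]
  ring

theorem ex_congr (A : ι → ι → R) (n : ℕ) (u : ℕ → ι) {f g : ℕ → R}
    (h : ∀ i < 2 * n + 1, f i = g i) : ex A n u f = ex A n u g :=
  sum_congr rfl fun j _ => by rw [h j.1 j.2]

theorem ex_add (A : ι → ι → R) (n : ℕ) (u : ℕ → ι) (f g : ℕ → R) :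
    ex A n u (fun i => f i + g i) = ex A n u f + ex A n u g := by
  simp [ex, add_mul, sum_add_distrib]

theorem ex_mul (A : ι → ι → R) (n : ℕ) (u : ℕ → ι) (c : R) (f : ℕ → R) :
    ex A n u (fun i => c * f i) = c * ex A n u f := by
  simp [ex, mul_sum, mul_assoc]

/-- The indicator of one index. -/
def dl (k : ℕ) (i : ℕ) : R := if i = k then 1 else 0

theorem ex_dl (A : ι → ι → R) (n : ℕ) (u : ℕ → ι) (j : Fin (2 * n + 1)) :
    ex A n u (dl j.1) = mn A n u j := by
  unfold ex
  rw [sum_eq_single j]
  · simp [dl]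
  · intro i _ hi
    have : i.1 ≠ j.1 := fun e => hi (Fin.ext e)
    simp [dl, this]
  · simp

theorem ex_dl0 (A : ι → ι → R) (n : ℕ) (x : ι) (v : ℕ → ι) :
    ex A n (cs x v) (dl 0) = pN A n v := by
  rw [show (0 : ℕ) = (0 : Fin (2 * n + 1)).1 from rfl, ex_dl]
  simp [mn, pN]

theorem ex_dl1 (A : ι → ι → R) (n : ℕ) (x y : ι) (v : ℕ → ι) :
    ex A (n + 1) (cs x (cs y v)) (dl 1) = -pN A (n + 1) (cs x v) := by
  rw [show (1 : ℕ) = (⟨1, by omega⟩ : Fin (2 * (n + 1) + 1)).1 from rfl, ex_dl]
  have h : ∀ a : Fin (2 * (n + 1)),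
      cs x (cs y v) (swap 0 (⟨1, by omega⟩ : Fin (2 * (n + 1) + 1)) a.succ).1 = cs x v a.1 := by
    rintro ⟨_ | a, ha⟩
    · rw [show (⟨0, ha⟩ : Fin (2 * (n + 1))).succ = ⟨1, by omega⟩ from rfl, swap_apply_right]
      rfl
    · rw [swap_apply_of_ne_of_ne (Fin.succ_ne_zero _)
        (fun e => by have := congrArg Fin.val e; simp only [Fin.val_succ] at this; omega)]
      rfl
  unfold mn pN
  simp only [h]
  rw [if_neg (by simp)]
  ring

theorem pN_swap {A : ι → ι → R} (n : ℕ) (v w : ℕ → ι) (a b : Fin (2 * n)) (hab : a ≠ b)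
    (h : ∀ i : Fin (2 * n), w i.1 = v (swap a b i).1) : pN A n w = -pN A n v := by
  unfold pN
  simp only [h]
  rw [Pf_perm (fun i j => A (v i.1) (v j.1)) (swap a b), Perm.sign_swap hab]
  simp

theorem pN_s01 (A : ι → ι → R) (n : ℕ) (x y : ι) (v : ℕ → ι) :
    pN A (n + 1) (cs x (cs y v)) = -pN A (n + 1) (cs y (cs x v)) := by
  refine pN_swap _ _ _ ⟨0, by omega⟩ ⟨1, by omega⟩ (by simp) ?_
  rintro ⟨_ | _ | i, hi⟩
  · rw [swap_apply_left]; rfl
  · rw [swap_apply_right]; rfl
  · rw [swap_apply_of_ne_of_ne (by simp) (by simp)]; rfl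

theorem pN_s12 (A : ι → ι → R) (n : ℕ) (x y z : ι) (v : ℕ → ι) :
    pN A (n + 2) (cs x (cs y (cs z v))) = -pN A (n + 2) (cs x (cs z (cs y v))) := by
  refine pN_swap _ _ _ ⟨1, by omega⟩ ⟨2, by omega⟩ (by simp) ?_
  rintro ⟨_ | _ | _ | i, hi⟩
  · rw [swap_apply_of_ne_of_ne (by simp) (by simp)]; rfl
  · rw [swap_apply_left]; rfl
  · rw [swap_apply_right]; rfl
  · rw [swap_apply_of_ne_of_ne (by simp) (by simp)]; rfl

theorem ex_dl2 (A : ι → ι → R) (n : ℕ) (x y z : ι) (v : ℕ → ι) :
    ex A (n + 1) (cs x (cs y (cs z v))) (dl 2) = pN A (n + 1) (cs x (cs y v)) := by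
  rw [show (2 : ℕ) = (⟨2, by omega⟩ : Fin (2 * (n + 1) + 1)).1 from rfl, ex_dl]
  have h : ∀ a : Fin (2 * (n + 1)),
      cs x (cs y (cs z v)) (swap 0 (⟨2, by omega⟩ : Fin (2 * (n + 1) + 1)) a.succ).1 =
        cs y (cs x v) a.1 := by
    rintro ⟨_ | _ | a, ha⟩
    · rw [swap_apply_of_ne_of_ne (Fin.succ_ne_zero _) (by simp [Fin.ext_iff])]
      rfl
    · rw [show (⟨0 + 1, ha⟩ : Fin (2 * (n + 1))).succ = ⟨2, by omega⟩ from rfl, swap_apply_right]
      rfl
    · rw [swap_apply_of_ne_of_ne (Fin.succ_ne_zero _) (by simp [Fin.ext_iff])]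
      rfl
  rw [pN_s01]
  unfold mn pN
  simp only [h]
  rw [if_neg (by simp [Fin.ext_iff])]
  ring

theorem eq_zero_of_eq_neg {x : R} (h : x = -x) : x = 0 := by
  have h2 : (2 : ℚ) • x = 0 := by
    rw [two_smul]
    linear_combination h
  rw [← one_smul ℚ x, show (1 : ℚ) = 1 / 2 * 2 by norm_num, mul_smul, h2, smul_zero]

theorem pN_dup (A : ι → ι → R) (n : ℕ) (x : ι) (v : ℕ → ι) :
    pN A (n + 1) (cs x (cs x v)) = 0 := eq_zero_of_eq_neg (pN_s01 A n x x v)

theorem pN_zero (A : ι → ι → R) (v : ℕ → ι) : pN A 0 v = 1 := Pf_zero _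

/-- The product of the pairings as a multilinear map. -/
def pm {V : Type} [AddCommGroup V] [Module R V] (ω : V →ₗ[R] V →ₗ[R] R) (n : ℕ) :
    MultilinearMap R (fun _ : Fin (2 * n) => V) R where
  toFun v := ∏ i : Fin n, ω (v (ev i)) (v (od i))
  map_update_add' v r x y := by
    have hr := r.2
    rcases Nat.even_or_odd' r.1 with ⟨i, hi | hi⟩
    · have e : r = ev ⟨i, by omega⟩ := Fin.ext hi
      generalize (⟨i, by omega⟩ : Fin n) = a at e
      subst e
      have h : ∀ z, ∏ i : Fin n, ω (Function.update v (ev a) z (ev i))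
          (Function.update v (ev a) z (od i)) =
          ω z (v (od a)) * ∏ i ∈ univ.erase a, ω (v (ev i)) (v (od i)) := by
        intro z
        rw [← mul_prod_erase univ _ (mem_univ a), Function.update_self,
          Function.update_of_ne (ev_ne_od a a).symm]
        congr 1
        refine prod_congr rfl fun i hi => ?_
        rw [Function.update_of_ne (fun e => (mem_erase.1 hi).1 (ev_inj e)),
          Function.update_of_ne (ev_ne_od a i).symm]
      rw [h, h, h, map_add, LinearMap.add_apply, add_mul]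
    · have e : r = od ⟨i, by omega⟩ := Fin.ext hi
      generalize (⟨i, by omega⟩ : Fin n) = a at e
      subst e
      have h : ∀ z, ∏ i : Fin n, ω (Function.update v (od a) z (ev i))
          (Function.update v (od a) z (od i)) =
          ω (v (ev a)) z * ∏ i ∈ univ.erase a, ω (v (ev i)) (v (od i)) := by
        intro z
        rw [← mul_prod_erase univ _ (mem_univ a), Function.update_self,
          Function.update_of_ne (ev_ne_od a a)]
        congr 1
        refine prod_congr rfl fun i hi => ?_
        rw [Function.update_of_ne (fun e => (mem_erase.1 hi).1 (od_inj e)),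
          Function.update_of_ne (ev_ne_od i a)]
      rw [h, h, h, map_add, add_mul]
  map_update_smul' v r c x := by
    have hr := r.2
    rcases Nat.even_or_odd' r.1 with ⟨i, hi | hi⟩
    · have e : r = ev ⟨i, by omega⟩ := Fin.ext hi
      generalize (⟨i, by omega⟩ : Fin n) = a at e
      subst e
      have h : ∀ z, ∏ i : Fin n, ω (Function.update v (ev a) z (ev i))
          (Function.update v (ev a) z (od i)) =
          ω z (v (od a)) * ∏ i ∈ univ.erase a, ω (v (ev i)) (v (od i)) := by
        intro z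
        rw [← mul_prod_erase univ _ (mem_univ a), Function.update_self,
          Function.update_of_ne (ev_ne_od a a).symm]
        congr 1
        refine prod_congr rfl fun i hi => ?_
        rw [Function.update_of_ne (fun e => (mem_erase.1 hi).1 (ev_inj e)),
          Function.update_of_ne (ev_ne_od a i).symm]
      rw [h, h, map_smul, LinearMap.smul_apply, smul_mul_assoc]
    · have e : r = od ⟨i, by omega⟩ := Fin.ext hi
      generalize (⟨i, by omega⟩ : Fin n) = a at e
      subst e
      have h : ∀ z, ∏ i : Fin n, ω (Function.update v (od a) z (ev i))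
          (Function.update v (od a) z (od i)) =
          ω (v (ev a)) z * ∏ i ∈ univ.erase a, ω (v (ev i)) (v (od i)) := by
        intro z
        rw [← mul_prod_erase univ _ (mem_univ a), Function.update_self,
          Function.update_of_ne (ev_ne_od a a)]
        congr 1
        refine prod_congr rfl fun i hi => ?_
        rw [Function.update_of_ne (fun e => (mem_erase.1 hi).1 (od_inj e)),
          Function.update_of_ne (ev_ne_od i a)]
      rw [h, h, map_smul, smul_mul_assoc]

omit [Algebra ℚ R] in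
theorem alt_tri {V : Type} [AddCommGroup V] [Module R V] {N : ℕ} (f : V [⋀^Fin N]→ₗ[R] R)
    (v v' : Fin N → V) (h : ∀ j, v' j - v j ∈ Submodule.span R (v '' {i | i < j})) :
    f v' = f v := by
  have key : ∀ k : ℕ, f (fun j => if N ≤ j.1 + k then v' j else v j) = f v := by
    intro k
    induction k with
    | zero =>
      congr 1
      funext j
      rw [if_neg (by have := j.2; omega)]
    | succ k ih =>
      by_cases hk : N ≤ k
      · rw [← ih]
        congr 1
        funext j
        rw [if_pos (by omega), if_pos (by omega)]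
      · obtain ⟨r, hr⟩ : ∃ r : Fin N, r.1 + (k + 1) = N :=
          ⟨⟨N - (k + 1), by omega⟩, by simp; omega⟩
        set m : Fin N → V := fun j => if N ≤ j.1 + k then v' j else v j with hm
        have e1 : (fun j : Fin N => if N ≤ j.1 + (k + 1) then v' j else v j) =
            Function.update m r (v r + (v' r - v r)) := by
          funext j
          by_cases hj : j = r
          · subst hj
            rw [Function.update_self, if_pos (by omega)]
            abel
          · have : j.1 ≠ r.1 := fun e => hj (Fin.ext e)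
            rw [Function.update_of_ne hj, hm]
            by_cases h1 : N ≤ j.1 + k
            · simp only [if_pos h1, if_pos (show N ≤ j.1 + (k + 1) by omega)]
            · simp only [if_neg h1, if_neg (show ¬ N ≤ j.1 + (k + 1) by omega)]
        have e2 : Function.update m r (v r) = m := by
          have : m r = v r := by simp only [hm]; rw [if_neg (by omega)]
          rw [← this, Function.update_eq_self]
        have e3 : ∀ z ∈ Submodule.span R (v '' {i | i < r}), f (Function.update m r z) = 0 := by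
          intro z hz
          induction hz using Submodule.span_induction with
          | mem x hx =>
            obtain ⟨i, hi, rfl⟩ := hx
            have hi' : i.1 < r.1 := hi
            have : m i = v i := by simp only [hm]; rw [if_neg (by omega)]
            rw [← this]
            exact f.map_update_self m (ne_of_gt hi)
          | zero => exact f.map_update_zero m r
          | add x y _ _ hx hy => rw [f.map_update_add, hx, hy, add_zero]
          | smul a x _ hx => rw [f.map_update_smul, hx, smul_zero]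
        rw [e1, f.map_update_add, e2, e3 _ (h r), add_zero, ih]
  rw [← key N]
  congr 1
  funext j
  rw [if_pos (by omega)]

theorem Pf_tri {V : Type} [AddCommGroup V] [Module R V] (ω : V →ₗ[R] V →ₗ[R] R) (n : ℕ)
    (v v' : Fin (2 * n) → V) (h : ∀ j, v' j - v j ∈ Submodule.span R (v '' {i | i < j})) :
    (Pf n fun i j => ω (v' i) (v' j)) = Pf n fun i j => ω (v i) (v j) := by
  have e : ∀ u : Fin (2 * n) → V, (Pf n fun i j => ω (u i) (u j)) =
      (1 / (2 ^ n * (n.factorial : ℚ))) • MultilinearMap.alternatization (pm ω n) u := by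
    intro u
    unfold Pf
    rw [MultilinearMap.alternatization_apply]
    congr 1
    refine sum_congr rfl fun σ _ => ?_
    rw [Units.smul_def, zsmul_eq_mul]
    rfl
  rw [e, e, alt_tri _ v v' h]

theorem Pf_monic (ω : Polynomial R →ₗ[R] Polynomial R →ₗ[R] R) (n : ℕ) (p : ℕ → Polynomial R)
    (h : ∀ j : ℕ, (p j - Polynomial.X ^ j).degree < (j : WithBot ℕ)) :
    (Pf n fun i j => ω (p i.1) (p j.1)) =
      Pf n fun i j => ω (Polynomial.X ^ i.1) (Polynomial.X ^ j.1) := by
  classical
  refine Pf_tri ω n (fun i => Polynomial.X ^ i.1) (fun i => p i.1) fun j => ?_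
  have h1 := Polynomial.mem_degreeLT.2 (h j.1)
  rw [Polynomial.degreeLT_eq_span_X_pow] at h1
  refine Submodule.span_mono ?_ h1
  intro x hx
  simp only [coe_image, coe_range, Set.mem_image, Set.mem_Iio] at hx
  obtain ⟨i, hi, rfl⟩ := hx
  exact ⟨⟨i, hi.trans j.2⟩, hi, rfl⟩

end Pool.Agent.P.MP_c5a58e_co
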