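import Pool.Agent.P.MP_c5a58e_co.PfB

namespace Pool.Agent.P.MP_c5a58e_co

open Finset Sum

variable {R : Type} [CommRing R] [Algebra ℚ R]

/-- The pairing of basis labels and border vectors. -/
def AA (M : ℕ → ℕ → R) : ℕ ⊕ (ℕ → R) → ℕ ⊕ (ℕ → R) → R
  | inl i, inl j => M j i
  | inr φ, inl j => φ j
  | inl j, inr φ => -φ j
  | inr _, inr _ => 0

/-- The labels `k - 1, …, 0`. -/
def ee (R : Type) : ℕ → ℕ → ℕ ⊕ (ℕ → R)
  | 0 => fun _ => inl 0
  | k + 1 => cs (inl k) (ee R k)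

theorem ee_apply (R : Type) : ∀ k i, i < k → ee R k i = inl (k - 1 - i)
  | 0, _, h => absurd h (Nat.not_lt_zero _)
  | _ + 1, 0, _ => rfl
  | k + 1, i + 1, h => by
    rw [ee, cs_succ, ee_apply R k i (by omega)]
    congr 1
    omega

omit [Algebra ℚ R] in
theorem AA_skew {M : ℕ → ℕ → R} (hM : ∀ i j, M i j = -M j i) (x y : ℕ ⊕ (ℕ → R)) :
    AA M x y = -AA M y x := by
  rcases x with i | φ <;> rcases y with j | ψ <;> simp [AA]
  exact hM _ _

/-- The leading Pfaffians. -/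
noncomputable def sP (M : ℕ → ℕ → R) (n : ℕ) : R := pN (AA M) n (ee R (2 * n))

/-- One border vector. -/
noncomputable def s1 (M : ℕ → ℕ → R) (n : ℕ) (φ : ℕ → R) : R :=
  pN (AA M) (n + 1) (cs (inr φ) (ee R (2 * n + 1)))

/-- Two border vectors. -/
noncomputable def s2 (M : ℕ → ℕ → R) (n : ℕ) (φ ψ : ℕ → R) : R :=
  pN (AA M) (n + 1) (cs (inr ψ) (cs (inr φ) (ee R (2 * n))))

theorem sP_eq (M : ℕ → ℕ → R) (n : ℕ) : sP M n = Pf n fun i j => M i.1 j.1 := by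
  rw [← Pf_rev]
  unfold sP pN
  congr 1
  funext i j
  rw [ee_apply R _ _ i.2, ee_apply R _ _ j.2, AA, Fin.val_rev, Fin.val_rev]
  congr 1 <;> omega

variable {M : ℕ → ℕ → R}

theorem s1_lin (hM : ∀ i j, M i j = -M j i) (n : ℕ) {χ φ ψ : ℕ → R} {a b : R}
    (h : ∀ j < 2 * n + 1, χ j = a * φ j + b * ψ j) :
    s1 M n χ = a * s1 M n φ + b * s1 M n ψ := by
  unfold s1
  rw [pN_cs (AA_skew hM), pN_cs (AA_skew hM), pN_cs (AA_skew hM), ← ex_mul, ← ex_mul, ← ex_add]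
  refine ex_congr _ _ _ fun i hi => ?_
  rw [ee_apply R _ _ hi]
  exact h _ (by omega)

theorem s2_lin (hM : ∀ i j, M i j = -M j i) (n : ℕ) (ξ : ℕ → R) {χ φ ψ : ℕ → R} {a b : R}
    (h : ∀ j < 2 * n, χ j = a * φ j + b * ψ j) :
    s2 M n ξ χ = a * s2 M n ξ φ + b * s2 M n ξ ψ := by
  unfold s2
  rw [pN_cs (AA_skew hM), pN_cs (AA_skew hM), pN_cs (AA_skew hM), ← ex_mul, ← ex_mul, ← ex_add]
  refine ex_congr _ _ _ fun i hi => ?_
  rcases i with _ | i
  · simp [AA]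
  · rw [cs_succ, ee_apply R _ _ (by omega)]
    exact h _ (by omega)

theorem s2_anti (M : ℕ → ℕ → R) (n : ℕ) (φ ψ : ℕ → R) : s2 M n φ ψ = -s2 M n ψ φ :=
  pN_s01 _ _ _ _ _

theorem s2_self (M : ℕ → ℕ → R) (n : ℕ) (φ : ℕ → R) : s2 M n φ φ = 0 := pN_dup _ _ _ _

theorem s3_zero (hM : ∀ i j, M i j = -M j i) (n : ℕ) {χ φ ψ : ℕ → R} {a b : R}
    (h : ∀ j < 2 * n + 1, ψ j = a * φ j + b * χ j) :
    pN (AA M) (n + 2) (cs (inr χ) (cs (inr ψ) (cs (inr φ) (ee R (2 * n + 1))))) = 0 := by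
  have h1 : pN (AA M) (n + 2) (cs (inr ψ) (cs (inr χ) (cs (inr φ) (ee R (2 * n + 1))))) =
      a * pN (AA M) (n + 2) (cs (inr φ) (cs (inr χ) (cs (inr φ) (ee R (2 * n + 1))))) +
      b * pN (AA M) (n + 2) (cs (inr χ) (cs (inr χ) (cs (inr φ) (ee R (2 * n + 1))))) := by
    rw [pN_cs (AA_skew hM), pN_cs (AA_skew hM), pN_cs (AA_skew hM), ← ex_mul, ← ex_mul, ← ex_add]
    refine ex_congr _ _ _ fun i hi => ?_
    rcases i with _ | _ | i
    · simp [AA]
    · simp [AA]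
    · rw [cs_succ, cs_succ, ee_apply R _ _ (by omega)]
      exact h _ (by omega)
  rw [pN_s01, h1, pN_s12, pN_dup, pN_dup]
  ring

variable {y : ℕ → ℕ → R} {τ : ℕ → R}

theorem rec_P (hM : ∀ i j, M i j = -M j i)
    (hy : ∀ j k, j < k → M j k = y k j + if k = j + 1 then τ j else 0) (n : ℕ) :
    sP M (n + 1) = s1 M n (y (2 * n + 1)) + τ (2 * n) * sP M n := by
  unfold sP s1
  change pN (AA M) (n + 1) (cs (inl (2 * n + 1)) (ee R (2 * n + 1))) = _
  rw [pN_cs (AA_skew hM), pN_cs (AA_skew hM), ← ex_dl0 (AA M) n (inl (2 * n)) (ee R (2 * n)),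
    ← ex_mul]
  change _ = _ + ex (AA M) n (ee R (2 * n + 1)) _
  rw [← ex_add]
  refine ex_congr _ _ _ fun i hi => ?_
  rw [ee_apply R _ _ hi, AA, AA, hy _ _ (by omega), dl]
  rcases i with _ | i
  · simp
  · rw [if_neg (by omega), if_neg (by omega), mul_zero]

theorem s1_zero (hM : ∀ i j, M i j = -M j i) (φ : ℕ → R) : s1 M 0 φ = φ 0 := by
  unfold s1
  rw [pN_cs (AA_skew hM), ex_congr (g := fun i => φ 0 * dl 0 i), ex_mul]
  · change _ * ex _ _ (cs _ _) _ = _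
    rw [ex_dl0, pN_zero, mul_one]
  · intro i hi
    obtain rfl : i = 0 := by omega
    simp [dl, ee, AA]

theorem s2_zero (hM : ∀ i j, M i j = -M j i) (φ ψ : ℕ → R) : s2 M 0 φ ψ = 0 := by
  unfold s2
  rw [pN_cs (AA_skew hM), ex_congr (g := fun i => 0 * dl 0 i), ex_mul, zero_mul]
  intro i hi
  obtain rfl : i = 0 := by omega
  simp [AA]

theorem rec_1 (hM : ∀ i j, M i j = -M j i)
    (hy : ∀ j k, j < k → M j k = y k j + if k = j + 1 then τ j else 0) (n : ℕ) (φ : ℕ → R) :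
    s1 M (n + 1) φ = φ (2 * n + 2) * sP M (n + 1) + s2 M (n + 1) (y (2 * n + 2)) φ +
      τ (2 * n + 1) * s1 M n φ := by
  have h0 : ex (AA M) (n + 1) (cs (inr φ) (ee R (2 * n + 2))) (dl 0) = sP M (n + 1) :=
    ex_dl0 _ _ _ _
  have h1 : ex (AA M) (n + 1) (cs (inr φ) (ee R (2 * n + 2))) (dl 1) = -s1 M n φ :=
    ex_dl1 _ _ _ _ _
  have h2 : ex (AA M) (n + 1) (cs (inr φ) (ee R (2 * n + 2)))
      (fun i => AA M (inr (y (2 * n + 2))) (cs (inr φ) (ee R (2 * n + 2)) i)) =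
      -s2 M (n + 1) (y (2 * n + 2)) φ := by
    rw [← pN_cs (AA_skew hM)]
    exact pN_s01 _ _ _ _ _
  have h3 : s1 M (n + 1) φ =
      -pN (AA M) (n + 1 + 1) (cs (inl (2 * n + 2)) (cs (inr φ) (ee R (2 * n + 2)))) :=
    pN_s01 _ _ _ _ _
  rw [h3, pN_cs (AA_skew hM), ex_congr (g := fun i => (-φ (2 * n + 2) * dl 0 i +
    AA M (inr (y (2 * n + 2))) (cs (inr φ) (ee R (2 * n + 2)) i)) + τ (2 * n + 1) * dl 1 i),
    ex_add, ex_add, ex_mul, ex_mul, h0, h1, h2]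
  · ring
  · intro i hi
    rcases i with _ | i
    · simp [AA, dl]
    · rw [cs_succ, ee_apply R _ _ (by omega), AA, AA, hy _ _ (by omega), dl, dl]
      rcases i with _ | i
      · simp
      · rw [if_neg (by omega), if_neg (by omega), if_neg (by omega)]
        ring

theorem rec_2 (hM : ∀ i j, M i j = -M j i)
    (hy : ∀ j k, j < k → M j k = y k j + if k = j + 1 then τ j else 0) (n : ℕ) {φ ψ : ℕ → R}
    {a b : R} (h : ∀ j < 2 * n + 1, ψ j = a * φ j + b * y (2 * n + 1) j) :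
    s2 M (n + 1) φ ψ = φ (2 * n + 1) * s1 M n ψ - ψ (2 * n + 1) * s1 M n φ +
      τ (2 * n) * s2 M n φ ψ := by
  have h0 : ex (AA M) (n + 1) (cs (inr ψ) (cs (inr φ) (ee R (2 * n + 1)))) (dl 0) = s1 M n φ :=
    ex_dl0 _ _ _ _
  have h1 : ex (AA M) (n + 1) (cs (inr ψ) (cs (inr φ) (ee R (2 * n + 1)))) (dl 1) = -s1 M n ψ :=
    ex_dl1 _ _ _ _ _
  have h2 : ex (AA M) (n + 1) (cs (inr ψ) (cs (inr φ) (ee R (2 * n + 1)))) (dl 2) =
      s2 M n φ ψ := ex_dl2 _ _ _ _ _ _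
  have h4 : ex (AA M) (n + 1) (cs (inr ψ) (cs (inr φ) (ee R (2 * n + 1))))
      (fun i => AA M (inr (y (2 * n + 1))) (cs (inr ψ) (cs (inr φ) (ee R (2 * n + 1))) i)) =
      0 := by
    rw [← pN_cs (AA_skew hM)]
    exact s3_zero hM n h
  have h3 : s2 M (n + 1) φ ψ = pN (AA M) (n + 1 + 1)
      (cs (inl (2 * n + 1)) (cs (inr ψ) (cs (inr φ) (ee R (2 * n + 1))))) := by
    rw [pN_s01, pN_s12, neg_neg]
    rfl
  rw [h3, pN_cs (AA_skew hM), ex_congr (g := fun i => ((-ψ (2 * n + 1) * dl 0 i +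
    -φ (2 * n + 1) * dl 1 i) +
    AA M (inr (y (2 * n + 1))) (cs (inr ψ) (cs (inr φ) (ee R (2 * n + 1))) i)) +
      τ (2 * n) * dl 2 i), ex_add, ex_add, ex_add, ex_mul, ex_mul, ex_mul, h0, h1, h2, h4]
  · ring
  · intro i hi
    rcases i with _ | _ | i
    · simp [AA, dl]
    · simp [AA, dl]
    · rw [cs_succ, cs_succ, ee_apply R _ _ (by omega), AA, AA, hy _ _ (by omega), dl, dl, dl]
      rcases i with _ | i
      · simp
      · rw [if_neg (by omega), if_neg (by omega), if_neg (by omega), if_neg (by omega)]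
        ring

/-- The first-order system satisfied by the four normalised sequences. -/
structure Sys (w δ : R) (Q d E ρ : ℕ → R) : Prop where
  Q0 : Q 0 = 1
  d0 : d 0 = 1
  E0 : E 0 = 1
  ρ0 : ρ 0 = 0
  hQ : ∀ m, Q (m + 1) = (4 * m + 5) * Q m + δ * E m
  hd : ∀ m, d (m + 1) = (4 * m + 3) * w ^ 2 * d m + (1 + w) * Q m +
    (δ + 2 * w - 2 * w ^ 2) * E m - w * (δ + 4 * w) * (1 - w) * ρ m
  hρ : ∀ m, ρ (m + 1) = 4 * (m + 1) * E m - (4 * m + 5) * w * ρ m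
  hE : ∀ m, E (m + 1) = d (m + 1) + (4 * (m + 1) * (δ + 3 * w) + w) * E m -
    (4 * m + 5) * w * (δ + 4 * w) * ρ m

theorem solve {c lam u w δ : R} {Q d E ρ : ℕ → R} (hS : Sys w δ Q d E ρ) (hw : u = 1 - w)
    (hc : c ^ 2 = lam * (δ + 4 * w)) (hM : ∀ i j, M i j = -M j i)
    (hy : ∀ j k, j < k → M j k = y k j + if k = j + 1 then τ j else 0)
    (hr : ∀ j k, j < k → y (k + 2) j = c * y (k + 1) j + -(w * lam) * y k j)
    (t0 : τ 0 = -1) (t1 : τ 1 = u * lam)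
    (t2 : ∀ j : ℕ, τ (j + 2) = (2 * j + 3) * u * lam ^ (j + 2))
    (a0 : y 1 0 = 2) (b0 : y 2 0 = c) (a1 : y 2 1 = 2 * (u * lam)) (b1 : y 3 1 = u * lam * c)
    (a2 : ∀ j, y (j + 3) (j + 2) = u * lam ^ (j + 2) * (2 - δ - 2 * w))
    (b2 : ∀ j, y (j + 4) (j + 2) = u * lam ^ (j + 2) * c * (1 - δ - w)) (m : ℕ) :
    sP M (m + 1) = lam ^ (m * (m + 1)) * u ^ m * Q m ∧
      s2 M (m + 1) (y (2 * m + 2)) (y (2 * m + 3)) =
        lam ^ (m * (m + 1)) * u ^ m * (lam ^ (2 * m + 2) * u) * (δ * d m) ∧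
      s1 M (m + 1) (y (2 * m + 3)) =
        lam ^ (m * (m + 1)) * u ^ m * (lam ^ (2 * m + 2) * u) * (2 * Q m + δ * E m) ∧
      s1 M (m + 1) (y (2 * m + 4)) = lam ^ (m * (m + 1)) * u ^ m * (lam ^ (2 * m + 2) * u) *
        (c * (Q m + δ * (E m - w * ρ m))) := by
  have l2 : ∀ n, s2 M (n + 1) (y (2 * n + 2)) (y (2 * n + 4)) =
      c * s2 M (n + 1) (y (2 * n + 2)) (y (2 * n + 3)) := by
    intro n
    rw [s2_lin hM (n + 1) _ fun j hj => hr j (2 * n + 2) (by omega), s2_self]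
    ring
  induction m with
  | zero =>
    have y30 : y 3 0 = c * c - 2 * (w * lam) := by rw [hr 0 1 (by omega), a0, b0]; ring
    have y40 : y 4 0 = c * (c * c - 2 * (w * lam)) - w * lam * c := by
      rw [hr 0 2 (by omega), y30, b0]; ring
    have e1 : sP M 1 = 1 := by
      rw [rec_P hM hy 0, s1_zero hM, a0, t0, sP, pN_zero]; ring
    have e2 : s2 M 1 (y 2) (y 3) = lam ^ 2 * u * δ := by
      rw [rec_2 hM hy 0 fun j hj => hr j 1 (by omega), s1_zero hM, s1_zero hM, s2_zero hM, a1, b1,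
        y30, b0]
      linear_combination u * lam * hc
    refine ⟨by simp [e1, hS.Q0], by simp [e2, hS.d0], ?_, ?_⟩
    · rw [rec_1 hM hy 0, e1, e2, s1_zero hM, a2 0, t1, y30, hS.Q0, hS.E0]
      linear_combination u * lam * hc
    · rw [rec_1 hM hy 0, l2 0, e1, e2, s1_zero hM, b2 0, t1, y40, hS.Q0, hS.E0, hS.ρ0]
      linear_combination u * lam * c * hc
  | succ m ih =>
    obtain ⟨i1, i2, i3, i4⟩ := ih
    have g : lam ^ ((m + 1) * (m + 1 + 1)) * u ^ (m + 1) =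
        lam ^ (m * (m + 1)) * u ^ m * (lam ^ (2 * m + 2) * u) := by ring
    rw [g]
    generalize lam ^ (m * (m + 1)) * u ^ m = G at *
    have y5 : s1 M (m + 1) (y (2 * m + 5)) = c * s1 M (m + 1) (y (2 * m + 4)) +
        -(w * lam) * s1 M (m + 1) (y (2 * m + 3)) :=
      s1_lin hM _ fun j hj => hr j (2 * m + 3) (by omega)
    have y6 : s1 M (m + 1) (y (2 * m + 6)) = c * s1 M (m + 1) (y (2 * m + 5)) +
        -(w * lam) * s1 M (m + 1) (y (2 * m + 4)) :=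
      s1_lin hM _ fun j hj => hr j (2 * m + 4) (by omega)
    have z1 : s2 M (m + 1) (y (2 * m + 4)) (y (2 * m + 5)) =
        (w * lam) ^ 2 * s2 M (m + 1) (y (2 * m + 2)) (y (2 * m + 3)) := by
      rw [s2_lin hM (m + 1) _ fun j hj => hr j (2 * m + 3) (by omega), s2_self,
        s2_anti M _ (y (2 * m + 4)),
        s2_lin hM (m + 1) _ fun j hj => hr j (2 * m + 2) (by omega), s2_self,
        s2_anti M _ (y (2 * m + 3))]
      ring
    have e1 : sP M (m + 1 + 1) = G * (lam ^ (2 * m + 2) * u) * Q (m + 1) := by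
      have := rec_P hM hy (m + 1)
      rw [show 2 * (m + 1) + 1 = 2 * m + 3 by ring, show 2 * (m + 1) = 2 * m + 2 by ring] at this
      rw [this, i3, i1, t2, hS.hQ]
      push_cast
      ring
    have e2 : s2 M (m + 1 + 1) (y (2 * m + 4)) (y (2 * m + 5)) =
        G * (lam ^ (2 * m + 2) * u) * (lam ^ (2 * m + 4) * u) * (δ * d (m + 1)) := by
      have := rec_2 hM hy (m + 1) (φ := y (2 * m + 4)) (ψ := y (2 * m + 5))
        fun j hj => hr j (2 * m + 3) (by omega)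
      rw [show 2 * (m + 1) + 1 = 2 * m + 3 by ring, show 2 * (m + 1) = 2 * m + 2 by ring] at this
      rw [this, y5, z1, i2, i3, i4, t2, a2 (2 * m + 1), b2 (2 * m + 1), hS.hd]
      subst hw
      push_cast
      linear_combination G * lam ^ (4 * m + 5) * (1 - w) ^ 2 *
        (Q m + δ * (E m - w * ρ m)) * (1 - w) * hc
    refine ⟨e1, e2, ?_, ?_⟩
    · have := rec_1 hM hy (m + 1) (y (2 * m + 5))
      rw [show 2 * (m + 1) + 2 = 2 * m + 4 by ring,
        show 2 * (m + 1) + 1 = 2 * m + 1 + 2 by ring] at this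
      refine this.trans ?_
      rw [e1, e2, y5, i3, i4, t2, a2 (2 * m + 2), hS.hE, hS.hQ]
      push_cast
      linear_combination (4 * m + 5) * G * lam ^ (4 * m + 5) * u ^ 2 *
        (Q m + δ * (E m - w * ρ m)) * hc
    · have := rec_1 hM hy (m + 1) (y (2 * m + 6))
      have h2 := l2 (m + 1)
      rw [show 2 * (m + 1) + 2 = 2 * m + 4 by ring, show 2 * (m + 1) + 4 = 2 * m + 6 by ring,
        show 2 * (m + 1) + 3 = 2 * m + 5 by ring] at h2
      rw [show 2 * (m + 1) + 2 = 2 * m + 4 by ring,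
        show 2 * (m + 1) + 1 = 2 * m + 1 + 2 by ring] at this
      refine this.trans ?_
      rw [h2, e1, e2, y6, y5, i3, i4, t2, b2 (2 * m + 2), hS.hE, hS.hρ, hS.hQ]
      push_cast
      linear_combination (4 * m + 5) * G * lam ^ (4 * m + 5) * u ^ 2 * c *
        (Q m + δ * (E m - w * ρ m)) * hc

end Pool.Agent.P.MP_c5a58e_co
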