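import Pool.Agent.P.MP_c5a58e_co.Closed

/-! The classical sequences as weighted path counts. -/

namespace Pool.Agent.P.MP_c5a58e_co

open Finset Polynomial

variable {R S : Type} [CommRing R] [CommRing S]

theorem paths_map (f : R →+* S) (b0 b l lam : R) (n : ℕ) : ∀ k,
    f (paths b0 b l lam n k) = paths (f b0) (f b) (f l) (f lam) n k := by
  induction n with
  | zero => rintro (_ | k) <;> simp [paths]
  | succ n ih => rintro (_ | k) <;> simp [paths, ih]

theorem paths_refl (b lam : R) (n : ℕ) : ∀ k, paths b b lam lam n k =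
    paths b b (2 * lam) lam n k - lam * paths b b (2 * lam) lam n (k + 2) := by
  induction n with
  | zero => rintro (_ | k) <;> simp [paths]
  | succ n ih => rintro (_ | k) <;> simp only [paths, ih] <;> ring

theorem paths_shift (a : R) (n : ℕ) :
    paths a (1 + a) a a (n + 1) 0 = a * paths (1 + a) (1 + a) a a n 0 ∧
      ∀ k, paths a (1 + a) a a (n + 1) (k + 1) =
        paths (1 + a) (1 + a) a a n k + a * paths (1 + a) (1 + a) a a n (k + 1) := by
  induction n with
  | zero => exact ⟨by simp [paths], by rintro (_ | k) <;> simp [paths]⟩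
  | succ n ih =>
    refine ⟨?_, ?_⟩
    · rw [paths, ih.1, ih.2, paths]; ring
    · rintro (_ | k)
      · rw [paths.eq_4, ih.1, ih.2, ih.2, paths.eq_3, paths.eq_4]; ring
      · rw [paths.eq_4, ih.2, ih.2, ih.2, paths.eq_4, paths.eq_4]; ring

theorem paths_binom (b0 b l lam : R) (n : ℕ) : ∀ k, paths (b0 + 1) (b + 1) l lam n k =
    ∑ p ∈ antidiagonal n, (n.choose p.1 : R) * paths b0 b l lam p.1 k := by
  induction n with
  | zero => rintro (_ | k) <;> simp [paths]
  | succ n ih =>
    intro k
    rw [sum_antidiagonal_choose_succ_mul (fun i _ => paths b0 b l lam i k) n]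
    have h : ∀ f : ℕ × ℕ → R, ∑ p ∈ antidiagonal n, (n.choose p.2 : R) * f p =
        ∑ p ∈ antidiagonal n, (n.choose p.1 : R) * f p := fun f =>
      sum_congr rfl fun p hp => by rw [Nat.choose_symm_of_eq_add (mem_antidiagonal.1 hp).symm]
    rw [h fun p => paths b0 b l lam (p.1 + 1) k]
    rcases k with _ | k
    · simp only [paths, ih, mul_sum, ← sum_add_distrib]
      exact sum_congr rfl fun p _ => by ring
    · simp only [paths, ih, mul_sum, ← sum_add_distrib]
      exact sum_congr rfl fun p _ => by ring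

theorem paths_coeff (n : ℕ) : ∀ k i, (paths (1 + X) (1 + X) (2 * X) X n k : ℚ[X]).coeff i =
    (n.choose (i + k) : ℚ) * n.choose i := by
  induction n with
  | zero =>
    rintro (_ | k) (_ | i) <;> simp [paths, coeff_one]
  | succ n ih =>
    rintro (_ | k) (_ | i)
    · simp [paths, add_mul, ih]
    · have h : ∀ p : ℚ[X], (2 * X * p).coeff (i + 1) = 2 * p.coeff i := fun p => by
        rw [two_mul, add_mul, coeff_add, coeff_X_mul, two_mul]
      simp only [paths, add_mul, one_mul, coeff_add, coeff_X_mul, h, ih, add_zero,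
        Nat.choose_succ_succ' n i]
      push_cast
      ring
    · simp [paths, add_mul, ih, Nat.choose_succ_succ' n k]
    · simp only [paths, add_mul, one_mul, coeff_add, coeff_X_mul, ih, Nat.choose_succ_succ' n i]
      rw [show i + 1 + (k + 1) = i + k + 1 + 1 by ring, Nat.choose_succ_succ' n (i + k + 1),
        show i + 1 + k = i + k + 1 by ring, show i + (k + 1) = i + k + 1 by ring,
        show i + (k + 2) = i + k + 1 + 1 by ring]
      push_cast
      ring

theorem nar_id (n i : ℕ) : 1 / ((n : ℚ) + 1) * ((n + 1).choose (i + 2) : ℚ) *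
    ((n + 1).choose (i + 1) : ℚ) =
    (n.choose (i + 1) : ℚ) * n.choose (i + 1) - (n.choose (i + 2) : ℚ) * n.choose i := by
  have h1 := congrArg (Nat.cast : ℕ → ℚ) (Nat.add_one_mul_choose_eq n (i + 1))
  have h2 := congrArg (Nat.cast : ℕ → ℚ) (Nat.add_one_mul_choose_eq n i)
  have h3 := congrArg (Nat.cast : ℕ → ℚ) (Nat.choose_succ_succ' n (i + 1))
  have h4 := congrArg (Nat.cast : ℕ → ℚ) (Nat.choose_succ_succ' n i)
  push_cast at h1 h2 h3 h4
  rw [show i + 1 + 1 = i + 2 by ring] at h1 h3
  have h5 : (n : ℚ) + 1 ≠ 0 := by positivity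
  field_simp
  rw [h3] at h1
  rw [h4] at h2
  rw [h3, h4]
  linear_combination (-((n.choose i : ℚ) + n.choose (i + 1))) * h1 +
    ((n.choose (i + 1) : ℚ) + n.choose (i + 2)) * h2

theorem narayana_coeff (n i : ℕ) : (narayana (n + 1)).coeff (i + 1) =
    1 / ((n : ℚ) + 1) * ((n + 1).choose (i + 1) : ℚ) * ((n + 1).choose i : ℚ) := by
  rw [narayana, finsetSum_coeff]
  simp only [coeff_C_mul, coeff_X_pow, add_left_inj, mul_ite, mul_one, mul_zero, sum_ite_eq,
    mem_range]
  split_ifs with h
  · rfl
  · rw [Nat.choose_eq_zero_of_lt (show n + 1 < i + 1 by omega)]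
    simp

theorem narayana_succ (n : ℕ) : narayana (n + 1) = X * paths (1 + X) (1 + X) X X n 0 := by
  ext i
  rcases i with _ | i
  · simp [narayana]
  · rw [narayana_coeff, coeff_X_mul, paths_refl, coeff_sub, paths_coeff]
    rcases i with _ | i
    · have h5 : (n : ℚ) + 1 ≠ 0 := by positivity
      simp [h5]
    · rw [coeff_X_mul, paths_coeff, nar_id]

theorem narayana_eq (n : ℕ) : narayana n = paths X (1 + X) X X n 0 := by
  rcases n with _ | n
  · rfl
  · rw [narayana_succ, (paths_shift X n).1]

theorem sum_choose_choose (n s : ℕ) (hs : s ≤ n) :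
    ∑ k ∈ range (n + 1), n.choose k * k.choose s = n.choose s * 2 ^ (n - s) := by
  rw [← Nat.sum_range_choose, mul_sum, ← sum_range_add_sum_Ico _ (show s ≤ n + 1 by omega),
    sum_eq_zero fun k hk => by rw [Nat.choose_eq_zero_of_lt (mem_range.1 hk), mul_zero], zero_add,
    sum_Ico_eq_sum_range, show n + 1 - s = n - s + 1 by omega]
  refine sum_congr rfl fun j hj => ?_
  rw [Nat.choose_mul (by omega), Nat.add_sub_cancel_left]

theorem choose_add_eq (m k r N : ℕ) (hN : k ≤ N) :
    (m + (k + r)).choose k = ∑ i ∈ range (N + 1), m.choose i * (k + r).choose (i + r) := by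
  rw [Nat.add_choose_eq, Nat.sum_antidiagonal_eq_sum_range_succ_mk]
  rw [← sum_subset (range_subset_range.2 (show k + 1 ≤ N + 1 by omega))
    fun i _ hi => by
      rw [Nat.choose_eq_zero_of_lt (show k + r < i + r by rw [mem_range] at hi; omega), mul_zero]]
  refine sum_congr rfl fun i hi => ?_
  rw [mem_range] at hi
  rw [Nat.choose_symm_of_eq_add (show k + r = k - i + (i + r) by omega)]

theorem eval_sum_coeff (f : ℚ[X]) (n : ℕ) (h : Lo f n) (x : ℚ) :
    f.eval x = ∑ i ∈ range n, f.coeff i * x ^ i := by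
  rw [← fn_eq_sum (fun i => x ^ i) f n h]
  exact lin_ext (φ := leval x) (fun n => by simp [fn_pow]) f

theorem delannoy_eq (n : ℕ) : delannoy n = paths 3 3 (2 * 2) 2 n 0 := by
  have h := paths_map (evalRingHom (2 : ℚ)) (1 + X) (1 + X) (2 * X) X n 0
  simp only [coe_evalRingHom, eval_add, eval_one, eval_X, eval_mul, eval_ofNat] at h
  rw [show (3 : ℚ) = 1 + 2 by norm_num, ← h, eval_sum_coeff _ (n + 1) fun k hk => by
    rw [paths_coeff, Nat.choose_eq_zero_of_lt (show n < k by omega)]; simp]
  have h1 : ∑ k ∈ range (n + 1), n.choose k * (n + k).choose k =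
      ∑ i ∈ range (n + 1), n.choose i * n.choose i * 2 ^ i := by
    rw [sum_congr rfl fun k hk => by
      rw [show (n + k).choose k = _ from
        choose_add_eq n k 0 n (Nat.lt_succ_iff.1 (mem_range.1 hk)), mul_sum],
      sum_comm, ← sum_range_reflect]
    refine sum_congr rfl fun i hi => ?_
    rw [mem_range] at hi
    simp only [add_zero, mul_left_comm (n.choose _) (n.choose (n + 1 - 1 - i)), ← mul_sum]
    rw [sum_choose_choose n _ (by omega), show n + 1 - 1 - i = n - i by omega,
      Nat.choose_symm (by omega), show n - (n - i) = i by omega, mul_assoc]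
  have h2 := congrArg (Nat.cast : ℕ → ℚ) h1
  push_cast at h2
  simp only [delannoy, h2, paths_coeff, add_zero]

theorem schroeder_eq (n : ℕ) : schroeder n = (narayana n).eval 2 := by
  rcases n with _ | n
  · simp [schroeder, narayana, catalanQ]
  have h5 : (n : ℚ) + 1 ≠ 0 := by positivity
  have h6 : (n : ℚ) + 2 ≠ 0 := by positivity
  have h1 : ∑ k ∈ range (n + 2), (n + 2).choose (k + 1) * (n + 1 + k).choose k =
      ∑ i ∈ range (n + 1), n.choose i * (n + 2).choose (i + 1) * 2 ^ (n + 1 - i) := by
    rw [sum_congr rfl fun k hk => by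
      rw [show n + 1 + k = n + (k + 1) by ring,
        choose_add_eq n k 1 (n + 1) (Nat.lt_succ_iff.1 (mem_range.1 hk)), mul_sum],
      sum_comm, sum_range_succ, Nat.choose_succ_self]
    simp only [zero_mul, mul_zero, sum_const_zero, add_zero]
    refine sum_congr rfl fun i hi => ?_
    rw [mem_range] at hi
    have h := sum_choose_choose (n + 2) (i + 1) (by omega)
    rw [sum_range_succ', Nat.choose_zero_succ, mul_zero, add_zero,
      show n + 2 - (i + 1) = n + 1 - i by omega] at h
    simp only [mul_left_comm ((n + 2).choose _) (n.choose i), ← mul_sum]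
    rw [h, mul_assoc]
  have h2 := congrArg (Nat.cast : ℕ → ℚ) h1
  push_cast at h2
  have h3 : schroeder (n + 1) = 1 / ((n : ℚ) + 2) *
      ∑ k ∈ range (n + 2), ((n + 2).choose (k + 1) : ℚ) * ((n + 1 + k).choose k : ℚ) := by
    rw [schroeder, mul_sum]
    refine sum_congr rfl fun k hk => ?_
    rw [mem_range] at hk
    have e1 := congrArg (Nat.cast : ℕ → ℚ)
      (Nat.choose_mul (n := n + 1 + k) (k := 2 * k) (s := k) (by omega))
    rw [show n + 1 + k - k = n + 1 by omega, show 2 * k - k = k by omega] at e1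
    have e2 := congrArg (Nat.cast : ℕ → ℚ) (Nat.add_one_mul_choose_eq (n + 1) k)
    push_cast at e1 e2
    have h7 : (k : ℚ) + 1 ≠ 0 := by positivity
    rw [catalanQ]
    field_simp
    linear_combination ((n : ℚ) + 2) * e1 + ((n + 1 + k).choose k : ℚ) * e2
  rw [h3, h2, narayana, eval_finsetSum, mul_sum, ← sum_range_reflect]
  refine sum_congr rfl fun i hi => ?_
  rw [mem_range] at hi
  rw [show n + 1 - 1 - i = n - i by omega, Nat.choose_symm (by omega),
    show n + 1 - (n - i) = i + 1 by omega,
    Nat.choose_symm_of_eq_add (show n + 2 = n - i + 1 + (i + 1) by omega)]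
  have e1 := congrArg (Nat.cast : ℕ → ℚ) (Nat.add_one_mul_choose_eq (n + 1) i)
  have e2 := congrArg (Nat.cast : ℕ → ℚ) (Nat.add_one_mul_choose_eq n i)
  push_cast at e1 e2
  simp only [eval_mul, eval_C, eval_pow, eval_X]
  have h7 : (i : ℚ) + 1 ≠ 0 := by positivity
  rw [← mul_assoc]
  congr 1
  field_simp
  apply mul_left_cancel₀ h7
  linear_combination (-((n : ℚ) + 1) * n.choose i) * e1 +
    (((n : ℚ) + 2) * (n + 1).choose i) * e2

theorem paths_walk (m : ℕ) : ∀ k, (paths 0 0 (2 * 1) 1 m k : ℚ) =
    if (m + k) % 2 = 0 then (m.choose ((m + k) / 2) : ℚ) else 0 := by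
  induction m with
  | zero =>
    rintro (_ | k)
    · simp [paths]
    · rw [paths]
      split_ifs with h
      · rw [Nat.choose_eq_zero_of_lt (by omega)]; simp
      · rfl
  | succ m ih =>
    rintro (_ | k)
    · rw [paths, ih 1]
      split_ifs with h
      · obtain ⟨j, rfl⟩ : ∃ j, m = 2 * j + 1 := ⟨m / 2, by omega⟩
        rw [show (2 * j + 1 + 1) / 2 = j + 1 by omega, Nat.choose_succ_succ' (2 * j + 1) j,
          Nat.choose_symm_of_eq_add (show 2 * j + 1 = j + (j + 1) by omega)]
        push_cast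
        ring
      · simp
    · rw [paths, ih k, ih (k + 2)]
      by_cases h : (m + k) % 2 = 0
      · rw [if_pos h, if_pos (by omega), if_pos (by omega),
          show (m + 1 + (k + 1)) / 2 = (m + k) / 2 + 1 by omega,
          show (m + (k + 2)) / 2 = (m + k) / 2 + 1 by omega, Nat.choose_succ_succ']
        push_cast
        ring
      · rw [if_neg h, if_neg (by omega), if_neg (by omega)]
        ring

theorem sum_range_even (f : ℕ → ℚ) (n : ℕ) :
    ∑ j ∈ range (2 * n), f j = ∑ k ∈ range n, (f (2 * k) + f (2 * k + 1)) := by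
  induction n with
  | zero => simp
  | succ n ih => rw [mul_add, mul_one, sum_range_succ, sum_range_succ, ih, sum_range_succ]; ring

theorem motzkin_eq (n : ℕ) : motzkin n = paths 1 1 1 1 n 0 := by
  have h := paths_binom (0 : ℚ) 0 1 1 n 0
  rw [zero_add, Nat.sum_antidiagonal_eq_sum_range_succ_mk,
    sum_subset (range_subset_range.2 (show n + 1 ≤ 2 * (n + 1) by omega)) fun i _ hi => by
      rw [Nat.choose_eq_zero_of_lt (by rw [mem_range] at hi; omega)]; simp,
    sum_range_even] at h
  rw [h, motzkin]
  refine sum_congr rfl fun k _ => ?_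
  rw [paths_refl, paths_refl, paths_walk, paths_walk, paths_walk, paths_walk, if_pos (by omega),
    if_pos (by omega), if_neg (by omega), if_neg (by omega),
    show (2 * k + 0) / 2 = k by omega, show (2 * k + (0 + 2)) / 2 = k + 1 by omega, catalanQ]
  have e := congrArg (Nat.cast : ℕ → ℚ) (Nat.choose_succ_right_eq (2 * k) k)
  rw [show 2 * k - k = k by omega] at e
  push_cast at e
  have h7 : (k : ℚ) + 1 ≠ 0 := by positivity
  field_simp
  linear_combination ((n.choose (2 * k) : ℚ)) * e

end Pool.Agent.P.MP_c5a58e_co
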